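import Pool.Agent.Zk1.DH.Spec

set_option autoImplicit false

/-!
# The trivial bounds for the logarithmic derivative of the Euler product over the primes `p ≤ X`
-/

namespace Pool.Agent.Zk41.DH

open Complex
open Pool.Agent.Zk1.DH (PP S_MP0)

/-- the primes `p ≤ n` -/
def prs (n : ℕ) : Finset ℕ := (Finset.range (n + 1)).filter Nat.Prime

lemma prs_eq (n : ℕ) : prs n = (Finset.Icc 1 n).filter Nat.Prime := by
  unfold prs
  ext p
  rw [Finset.mem_filter, Finset.mem_filter, Finset.mem_range, Finset.mem_Icc]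
  constructor
  · rintro ⟨h1, h2⟩
    exact ⟨⟨h2.one_lt.le, by omega⟩, h2⟩
  · rintro ⟨h1, h2⟩
    exact ⟨by omega, h2⟩

lemma pow_dvd_fact (n p : ℕ) (hp : p.Prime) (hpn : p ≤ n) : p ^ (n / p) ∣ n.factorial := by
  rw [hp.pow_dvd_factorial_iff (b := Nat.log p n + 1) (by omega)]
  have h1 : 1 ≤ Nat.log p n := Nat.log_pos hp.one_lt hpn
  have h2 := Finset.single_le_sum (f := fun i => n / p ^ i) (s := Finset.Ico 1 (Nat.log p n + 1))
    (fun i _ => Nat.zero_le _) (Finset.mem_Ico.2 ⟨le_refl 1, by omega⟩)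
  simpa using h2

/-- Mertens, upper bound -/
lemma mert (n : ℕ) (hn : 1 ≤ n) : ∑ p ∈ prs n, Real.log p / p ≤ Real.log n + Real.log 4 := by
  have hn0 : (0 : ℝ) < n := by exact_mod_cast (by omega : 0 < n)
  have hdvd : ∏ p ∈ prs n, p ^ (n / p) ∣ n.factorial := by
    apply Finset.prod_dvd_of_isRelPrime
    · intro p hp q hq hpq
      have hp' := (Finset.mem_filter.1 (Finset.mem_coe.1 hp)).2
      have hq' := (Finset.mem_filter.1 (Finset.mem_coe.1 hq)).2
      exact Nat.coprime_iff_isRelPrime.1 (Nat.Coprime.pow _ _ ((Nat.coprime_primes hp' hq').2 hpq))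
    · intro p hp
      unfold prs at hp
      rw [Finset.mem_filter, Finset.mem_range] at hp
      exact pow_dvd_fact n p hp.2 (by omega)
  have hle : ∏ p ∈ prs n, p ^ (n / p) ≤ n ^ n :=
    (Nat.le_of_dvd (Nat.factorial_pos n) hdvd).trans (Nat.factorial_le_pow n)
  have hlog : ∑ p ∈ prs n, ((n / p : ℕ) : ℝ) * Real.log p ≤ n * Real.log n := by
    have h1 : Real.log ((∏ p ∈ prs n, p ^ (n / p) : ℕ) : ℝ) ≤ Real.log ((n ^ n : ℕ) : ℝ) := by
      apply Real.log_le_log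
      · have : 0 < ∏ p ∈ prs n, p ^ (n / p) := by
          apply Finset.prod_pos
          intro p hp
          exact pow_pos (Finset.mem_filter.1 hp).2.pos _
        exact_mod_cast this
      · exact_mod_cast hle
    push_cast at h1
    rw [Real.log_pow, Real.log_prod] at h1
    · refine le_trans (le_of_eq ?_) h1
      apply Finset.sum_congr rfl
      intro p _
      rw [Real.log_pow]
    · intro p hp
      have := (Finset.mem_filter.1 hp).2.pos
      positivity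
  have hth : ∑ p ∈ prs n, Real.log p ≤ n * Real.log 4 := by
    have h1 : Real.log ((primorial n : ℕ) : ℝ) ≤ Real.log ((4 ^ n : ℕ) : ℝ) := by
      apply Real.log_le_log
      · exact_mod_cast primorial_pos n
      · exact_mod_cast primorial_le_four_pow n
    unfold primorial at h1
    push_cast at h1
    rw [Real.log_pow, Real.log_prod] at h1
    · exact h1
    · intro p hp
      have := (Finset.mem_filter.1 hp).2.pos
      positivity
  have h3 : n * ∑ p ∈ prs n, Real.log p / p ≤ n * (Real.log n + Real.log 4) := by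
    rw [Finset.mul_sum]
    have h4 : ∀ p ∈ prs n, n * (Real.log p / p) ≤ ((n / p : ℕ) : ℝ) * Real.log p + Real.log p := by
      intro p hp
      have hp' := (Finset.mem_filter.1 hp).2
      have hp0 : (0 : ℝ) < p := by exact_mod_cast hp'.pos
      have hl : 0 ≤ Real.log p := Real.log_nonneg (by exact_mod_cast hp'.one_lt.le)
      have h5 : (n : ℝ) / p < (n / p : ℕ) + 1 := by
        rw [div_lt_iff₀ hp0]
        have := Nat.lt_mul_div_succ n hp'.pos
        calc (n : ℝ) < ((p * (n / p + 1) : ℕ) : ℝ) := by exact_mod_cast this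
          _ = ((n / p : ℕ) + 1) * p := by push_cast; ring
      calc n * (Real.log p / p) = n / p * Real.log p := by ring
        _ ≤ ((n / p : ℕ) + 1) * Real.log p := mul_le_mul_of_nonneg_right h5.le hl
        _ = _ := by ring
    calc ∑ p ∈ prs n, n * (Real.log p / p) ≤ ∑ p ∈ prs n, (((n / p : ℕ) : ℝ) * Real.log p + Real.log p) :=
          Finset.sum_le_sum h4
      _ = ∑ p ∈ prs n, ((n / p : ℕ) : ℝ) * Real.log p + ∑ p ∈ prs n, Real.log p := Finset.sum_add_distrib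
      _ ≤ n * Real.log n + n * Real.log 4 := add_le_add hlog hth
      _ = n * (Real.log n + Real.log 4) := by ring
  exact le_of_mul_le_mul_left h3 hn0

lemma mertX (X : ℝ) (hX : 1 ≤ X) : ∑ p ∈ prs ⌊X⌋₊, Real.log p / p ≤ Real.log X + Real.log 4 := by
  have h1 : 1 ≤ ⌊X⌋₊ := Nat.le_floor (by exact_mod_cast hX)
  have h2 : (⌊X⌋₊ : ℝ) ≤ X := Nat.floor_le (by linarith)
  have h3 : Real.log (⌊X⌋₊ : ℝ) ≤ Real.log X :=
    Real.log_le_log (by exact_mod_cast (by omega : 0 < ⌊X⌋₊)) h2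
  have := mert ⌊X⌋₊ h1
  linarith

lemma nrm (p : ℕ) (hp : p.Prime) (s : ℂ) : ‖(p : ℂ) ^ (-s)‖ = (p : ℝ) ^ (-s.re) := by
  rw [Complex.norm_natCast_cpow_of_pos hp.pos, Complex.neg_re]

lemma nrm_lt (p : ℕ) (hp : p.Prime) (s : ℂ) (hs : 0 < s.re) : ‖(p : ℂ) ^ (-s)‖ < 1 := by
  rw [nrm p hp]
  apply Real.rpow_lt_one_of_one_lt_of_neg
  · exact_mod_cast hp.one_lt
  · linarith

lemma one_ne (p : ℕ) (hp : p.Prime) (s : ℂ) (hs : 0 < s.re) : 1 - (p : ℂ) ^ (-s) ≠ 0 := by
  intro h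
  have h1 : (p : ℂ) ^ (-s) = 1 := (sub_eq_zero.mp h).symm
  have h2 := nrm_lt p hp s hs
  rw [h1, norm_one] at h2
  exact lt_irrefl _ h2

/-- the logarithmic derivative of one factor -/
lemma ld1 (p : ℕ) (hp : p.Prime) (s : ℂ) (hs : 0 < s.re) :
    logDeriv (fun s : ℂ => (1 - (p : ℂ) ^ (-s))⁻¹) s = -((Real.log p : ℂ) * (p : ℂ) ^ (-s) / (1 - (p : ℂ) ^ (-s))) := by
  have hp0 : (p : ℂ) ≠ 0 := by exact_mod_cast hp.ne_zero
  have h1 : HasDerivAt (fun s : ℂ => (p : ℂ) ^ (-s)) ((p : ℂ) ^ (-s) * Complex.log p * (-1)) s := by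
    exact (hasDerivAt_id s).neg.const_cpow (Or.inl hp0)
  have h2 : HasDerivAt (fun s : ℂ => 1 - (p : ℂ) ^ (-s)) (-((p : ℂ) ^ (-s) * Complex.log p * (-1))) s :=
    h1.const_sub 1
  have hne := one_ne p hp s hs
  have h3 := h2.inv hne
  rw [logDeriv_apply]
  have h4 : deriv (fun s : ℂ => (1 - (p : ℂ) ^ (-s))⁻¹) s =
      -(-((p : ℂ) ^ (-s) * Complex.log p * (-1))) / (1 - (p : ℂ) ^ (-s)) ^ 2 := h3.deriv
  rw [h4]
  have h5 : Complex.log (p : ℂ) = (Real.log p : ℂ) := by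
    rw [Complex.ofReal_log (Nat.cast_nonneg p)]
    simp
  rw [h5]
  field_simp

lemma dif1 (p : ℕ) (hp : p.Prime) (s : ℂ) (hs : 0 < s.re) :
    DifferentiableAt ℂ (fun s : ℂ => (1 - (p : ℂ) ^ (-s))⁻¹) s := by
  have hp0 : (p : ℂ) ≠ 0 := by exact_mod_cast hp.ne_zero
  refine DifferentiableAt.inv ?_ (one_ne p hp s hs)
  refine (differentiableAt_const _).sub ?_
  exact (differentiableAt_id.neg).const_cpow (Or.inl hp0)

/-- the logarithmic derivative of the Euler product -/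
theorem ldPP (X : ℝ) (s : ℂ) (hs : 0 < s.re) :
    logDeriv (PP X) s = -∑ p ∈ prs ⌊X⌋₊, (Real.log p : ℂ) * (p : ℂ) ^ (-s) / (1 - (p : ℂ) ^ (-s)) := by
  have h1 : PP X = fun s => ∏ p ∈ prs ⌊X⌋₊, (fun (p : ℕ) (s : ℂ) => (1 - (p : ℂ) ^ (-s))⁻¹) p s := rfl
  rw [h1, logDeriv_prod, ← Finset.sum_neg_distrib]
  · apply Finset.sum_congr rfl
    intro p hp
    exact ld1 p (Finset.mem_filter.1 hp).2 s hs
  · intro p hp
    exact inv_ne_zero (one_ne p (Finset.mem_filter.1 hp).2 s hs)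
  · intro p hp
    exact dif1 p (Finset.mem_filter.1 hp).2 s hs

/-- the prime powers -/
theorem ppow0 (X : ℝ) (hX : 1 ≤ X) (s : ℂ) (hs : 1 / 2 ≤ s.re) :
    ‖logDeriv (PP X) s + ∑ p ∈ prs ⌊X⌋₊, (Real.log p : ℂ) * (p : ℂ) ^ (-s)‖ ≤
      7 / 2 * (Real.log X + Real.log 4) := by
  rw [ldPP X s (by linarith), neg_add_eq_sub, ← Finset.sum_sub_distrib]
  refine (norm_sum_le _ _).trans ?_
  calc ∑ p ∈ prs ⌊X⌋₊, ‖(Real.log p : ℂ) * (p : ℂ) ^ (-s) -
        (Real.log p : ℂ) * (p : ℂ) ^ (-s) / (1 - (p : ℂ) ^ (-s))‖ ≤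
        ∑ p ∈ prs ⌊X⌋₊, 7 / 2 * (Real.log p / p) := by
        apply Finset.sum_le_sum
        intro p hp
        have hp' := (Finset.mem_filter.1 hp).2
        have hp0 : (0 : ℝ) < p := by exact_mod_cast hp'.pos
        have hp1 : (1 : ℝ) ≤ p := by exact_mod_cast hp'.one_lt.le
        have hp2 : (2 : ℝ) ≤ p := by exact_mod_cast hp'.two_le
        have hl : 0 ≤ Real.log p := Real.log_nonneg hp1
        have hne := one_ne p hp' s (by linarith)
        have h1 : (Real.log p : ℂ) * (p : ℂ) ^ (-s) -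
            (Real.log p : ℂ) * (p : ℂ) ^ (-s) / (1 - (p : ℂ) ^ (-s)) =
            -((Real.log p : ℂ) * ((p : ℂ) ^ (-s)) ^ 2 / (1 - (p : ℂ) ^ (-s))) := by
          field_simp
          ring
        rw [h1, norm_neg, norm_div, norm_mul, norm_pow, Complex.norm_real, Real.norm_of_nonneg hl]
        have hn := nrm p hp' s
        -- the numerator
        have h2 : ‖(p : ℂ) ^ (-s)‖ ^ 2 ≤ 1 / p := by
          rw [hn, ← Real.rpow_natCast, ← Real.rpow_mul hp0.le]
          calc (p : ℝ) ^ (-s.re * ((2 : ℕ) : ℝ)) ≤ (p : ℝ) ^ (-1 : ℝ) := by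
                apply Real.rpow_le_rpow_of_exponent_le hp1
                push_cast
                linarith
            _ = 1 / p := by rw [Real.rpow_neg_one, one_div]
        -- the denominator
        have h3 : ‖(p : ℂ) ^ (-s)‖ ≤ 5 / 7 := by
          have h4 : ‖(p : ℂ) ^ (-s)‖ ^ 2 ≤ 1 / 2 := h2.trans (one_div_le_one_div_of_le (by norm_num) hp2)
          nlinarith [norm_nonneg ((p : ℂ) ^ (-s))]
        have h5 : 2 / 7 ≤ ‖1 - (p : ℂ) ^ (-s)‖ := by
          have := norm_sub_norm_le (1 : ℂ) ((p : ℂ) ^ (-s))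
          rw [norm_one] at this
          linarith
        rw [div_le_iff₀ (by linarith)]
        calc Real.log p * ‖(p : ℂ) ^ (-s)‖ ^ 2 ≤ Real.log p * (1 / p) := mul_le_mul_of_nonneg_left h2 hl
          _ = 7 / 2 * (Real.log p / p) * (2 / 7) := by ring
          _ ≤ 7 / 2 * (Real.log p / p) * ‖1 - (p : ℂ) ^ (-s)‖ :=
              mul_le_mul_of_nonneg_left h5 (by positivity)
    _ = 7 / 2 * ∑ p ∈ prs ⌊X⌋₊, Real.log p / p := by rw [Finset.mul_sum]
    _ ≤ 7 / 2 * (Real.log X + Real.log 4) := mul_le_mul_of_nonneg_left (mertX X hX) (by norm_num)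

/-- **Prime powers.** -/
theorem ppow (a0 : ℝ) (ha0 : 0 < a0) : ∃ T0 : ℝ, 2 ≤ T0 ∧ ∀ (T : ℝ) (z : ℂ), T0 ≤ T → 0 ≤ z.re →
    ‖logDeriv (PP (T ^ a0)) (1 / 2 + z) +
      ∑ p ∈ prs ⌊T ^ a0⌋₊, (Real.log p : ℂ) * (p : ℂ) ^ (-(1 / 2 + z))‖ ≤ 4 * a0 * Real.log T := by
  refine ⟨max 2 (Real.exp (7 * Real.log 4 / a0)), le_max_left _ _, fun T z hT hz => ?_⟩
  have hT2 : 2 ≤ T := (le_max_left _ _).trans hT
  have hT0 : 0 < T := by linarith
  have hX : 1 ≤ T ^ a0 := Real.one_le_rpow (by linarith) ha0.le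
  have hre : (1 / 2 + z : ℂ).re = 1 / 2 + z.re := by
    simp
  have h1 := ppow0 (T ^ a0) hX (1 / 2 + z) (by rw [hre]; linarith)
  refine h1.trans ?_
  have h2 : 7 * Real.log 4 / a0 ≤ Real.log T := by
    rw [Real.le_log_iff_exp_le hT0]
    exact (le_max_right _ _).trans hT
  rw [div_le_iff₀ ha0] at h2
  rw [Real.log_rpow hT0]
  nlinarith

/-- **The trivial bound.** -/
theorem mp0 : S_MP0 := by
  intro a0 ha0
  refine ⟨max 2 (Real.exp (Real.log 4 / a0)), le_max_left _ _, fun T z hT hz => ?_⟩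
  have hT2 : 2 ≤ T := (le_max_left _ _).trans hT
  have hT0 : 0 < T := by linarith
  have hX : 1 ≤ T ^ a0 := Real.one_le_rpow (by linarith) ha0.le
  have hre : (1 / 2 + z : ℂ).re = 1 / 2 + z.re := by
    simp
  have hs : 1 ≤ (1 / 2 + z : ℂ).re := by rw [hre]; linarith
  have h2 : Real.log 4 / a0 ≤ Real.log T := by
    rw [Real.le_log_iff_exp_le hT0]
    exact (le_max_right _ _).trans hT
  rw [div_le_iff₀ ha0] at h2
  rw [ldPP _ _ (by linarith), norm_neg]
  refine (norm_sum_le _ _).trans ?_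
  have hm := mertX (T ^ a0) hX
  rw [Real.log_rpow hT0] at hm
  have hlT : 0 < Real.log T := Real.log_pos (by linarith)
  calc ∑ p ∈ prs ⌊T ^ a0⌋₊, ‖(Real.log p : ℂ) * (p : ℂ) ^ (-(1 / 2 + z)) / (1 - (p : ℂ) ^ (-(1 / 2 + z)))‖ ≤
        ∑ p ∈ prs ⌊T ^ a0⌋₊, 2 * (Real.log p / p) := by
        apply Finset.sum_le_sum
        intro p hp
        have hp' := (Finset.mem_filter.1 hp).2
        have hp0 : (0 : ℝ) < p := by exact_mod_cast hp'.pos
        have hp1 : (1 : ℝ) ≤ p := by exact_mod_cast hp'.one_lt.le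
        have hp2 : (2 : ℝ) ≤ p := by exact_mod_cast hp'.two_le
        have hl : 0 ≤ Real.log p := Real.log_nonneg hp1
        rw [norm_div, norm_mul, Complex.norm_real, Real.norm_of_nonneg hl]
        have h3 : ‖(p : ℂ) ^ (-(1 / 2 + z))‖ ≤ 1 / p := by
          rw [nrm p hp' (1 / 2 + z)]
          calc (p : ℝ) ^ (-(1 / 2 + z : ℂ).re) ≤ (p : ℝ) ^ (-1 : ℝ) := by
                apply Real.rpow_le_rpow_of_exponent_le hp1
                linarith
            _ = 1 / p := by rw [Real.rpow_neg_one, one_div]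
        have h4 : ‖(p : ℂ) ^ (-(1 / 2 + z))‖ ≤ 1 / 2 := h3.trans (one_div_le_one_div_of_le (by norm_num) hp2)
        have h5 : 1 / 2 ≤ ‖1 - (p : ℂ) ^ (-(1 / 2 + z))‖ := by
          have := norm_sub_norm_le (1 : ℂ) ((p : ℂ) ^ (-(1 / 2 + z)))
          rw [norm_one] at this
          linarith
        rw [div_le_iff₀ (by linarith)]
        calc Real.log p * ‖(p : ℂ) ^ (-(1 / 2 + z))‖ ≤ Real.log p * (1 / p) := mul_le_mul_of_nonneg_left h3 hl
          _ = 2 * (Real.log p / p) * (1 / 2) := by ring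
          _ ≤ 2 * (Real.log p / p) * ‖1 - (p : ℂ) ^ (-(1 / 2 + z))‖ :=
              mul_le_mul_of_nonneg_left h5 (by positivity)
    _ = 2 * ∑ p ∈ prs ⌊T ^ a0⌋₊, Real.log p / p := by rw [Finset.mul_sum]
    _ ≤ 2 * (a0 * Real.log T + Real.log 4) := mul_le_mul_of_nonneg_left hm (by norm_num)
    _ ≤ 16 * a0 * Real.log T := by nlinarith

end Pool.Agent.Zk41.DH
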