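import Pool.Agent.Zk41.DH.Sc

set_option autoImplicit false

/-!
# Growth near the line (project DH4, task S_NG, helper41)
-/

namespace Pool.Agent.Zk41.DH

open Complex Filter Topology MeasureTheory Set
open Pool.Agent.H24R2.JP (XX)
open Pool.Agent.H24R2.DZ (SC1 SC2 NN ra)
open Pool.Agent.Zk1.DH

/-- Growth along a segment, from the logarithmic derivative. -/
theorem segF (F : ℂ → ℂ) (hF : Differentiable ℂ F) (p q : ℂ) (κ : ℝ) (hκ : 0 < κ)
    (h : ∀ x ∈ Icc (0 : ℝ) 1, F (p + x * (q - p)) ≠ 0 ∧ ‖logDeriv F (p + x * (q - p))‖ * ‖q - p‖ ≤ κ) :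
    ‖F q‖ ≤ Real.exp κ * ‖F p‖ := by
  have key := SG.GamAux.gron (fun x : ℝ => F (p + x * (q - p)))
    (fun x : ℝ => deriv F (p + x * (q - p)) * (q - p)) κ hκ ?_ ?_
  · have := key.1
    simpa using this
  · intro x hx
    have hlin : HasDerivAt (fun x : ℝ => p + (x : ℂ) * (q - p)) (q - p) x := by
      have h0 : HasDerivAt (fun x : ℝ => (x : ℂ)) 1 x := Complex.ofRealCLM.hasDerivAt
      simpa using (h0.mul_const (q - p)).const_add p
    exact HasDerivAt.comp x (hF _).hasDerivAt hlin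
  · intro x hx
    obtain ⟨h1, h2⟩ := h x hx
    have e : deriv F (p + x * (q - p)) = logDeriv F (p + x * (q - p)) * F (p + x * (q - p)) := by
      rw [logDeriv_apply, div_mul_cancel₀ _ h1]
    rw [e, norm_mul, norm_mul]
    calc ‖logDeriv F (p + x * (q - p))‖ * ‖F (p + x * (q - p))‖ * ‖q - p‖ =
          (‖logDeriv F (p + x * (q - p))‖ * ‖q - p‖) * ‖F (p + x * (q - p))‖ := by ring
      _ ≤ κ * ‖F (p + x * (q - p))‖ := by gcongr

/-- In the far region. -/
theorem segN {a : ℝ} {F : ℂ → ℂ} (ha : 0 < a) (hN : NN a 1 F) (p q : ℂ) (hp1 : 1 / 1000 ≤ p.re)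
    (hq1 : 1 / 1000 ≤ q.re) (hp2 : ‖p‖ ≤ 20) (hq2 : ‖q‖ ≤ 20) (hpq : ‖q - p‖ ≤ 4) :
    ‖F q‖ ≤ Real.exp (8 * a) * ‖F p‖ := by
  refine segF F hN.diff p q (8 * a) (by positivity) fun x hx => ?_
  have hconv : p + x * (q - p) = ((1 - x : ℝ) : ℂ) * p + (x : ℂ) * q := by
    push_cast
    ring
  have h1 : 1 / 1000 ≤ (p + x * (q - p)).re := by
    rw [hconv, add_re, re_ofReal_mul, re_ofReal_mul]
    nlinarith [hx.1, hx.2]
  have h2 : ‖p + x * (q - p)‖ ≤ 20 := by
    rw [hconv]
    refine (norm_add_le _ _).trans ?_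
    rw [norm_mul, norm_mul, Complex.norm_real, Complex.norm_real, Real.norm_eq_abs, Real.norm_eq_abs,
      abs_of_nonneg hx.1, abs_of_nonneg (by linarith [hx.2] : (0 : ℝ) ≤ 1 - x)]
    nlinarith [hx.1, hx.2]
  obtain ⟨g1, g2⟩ := hN.far _ h1 h2
  refine ⟨g1, ?_⟩
  have g3 : ‖logDeriv F (p + x * (q - p))‖ ≤ 2 * a := by
    have := norm_add_le (logDeriv F (p + x * (q - p)) - (a : ℂ)) (a : ℂ)
    rw [sub_add_cancel, Complex.norm_real, Real.norm_eq_abs, abs_of_pos ha] at this
    linarith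
  calc ‖logDeriv F (p + x * (q - p))‖ * ‖q - p‖ ≤ 2 * a * 4 := by gcongr
    _ = 8 * a := by ring

/-- Growth in the normalised situation. -/
theorem growN {a : ℝ} {F : ℂ → ℂ} (ha : 0 < a) (hN : NN a 1 F) (x u s : ℝ) (hx : |x| ≤ 2)
    (hu1 : 1 / 2 ≤ u) (hu2 : u ≤ 2) (hs : |s| ≤ 1 / 2) :
    ‖F (x + s * I)‖ ≤ Real.exp (8 * a) * ‖F (u + s * I)‖ := by
  have hnorm : ∀ v : ℝ, |v| ≤ 2 → ‖(v : ℂ) + s * I‖ ≤ 5 / 2 := by
    intro v hv
    refine (norm_add_le _ _).trans ?_
    rw [norm_mul, Complex.norm_I, mul_one, Complex.norm_real, Complex.norm_real, Real.norm_eq_abs,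
      Real.norm_eq_abs]
    linarith
  have hre : ∀ v : ℝ, ((v : ℂ) + s * I).re = v := by
    intro v
    simp
  have hu : |u| ≤ 2 := by
    rw [abs_of_nonneg (by linarith)]
    exact hu2
  have hpos : ∀ v : ℝ, 1 / 1000 ≤ v → v ≤ 2 →
      ‖F (v + s * I)‖ ≤ Real.exp (8 * a) * ‖F (u + s * I)‖ := by
    intro v hv1 hv2
    refine segN ha hN (u + s * I) (v + s * I) (by rw [hre]; linarith) (by rw [hre]; linarith)
      ((hnorm u hu).trans (by norm_num)) ((hnorm v (by rw [abs_of_nonneg (by linarith)]; exact hv2)).trans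
        (by norm_num)) ?_
    have e : (v : ℂ) + s * I - (u + s * I) = ((v - u : ℝ) : ℂ) := by push_cast; ring
    rw [e, Complex.norm_real, Real.norm_eq_abs, abs_le]
    constructor <;> linarith
  rcases le_or_gt (1 / 1000) |x| with hc | hc
  · rcases le_or_gt 0 x with h0 | h0
    · rw [abs_of_nonneg h0] at hc hx
      exact hpos x hc hx
    · rw [abs_of_neg h0] at hc hx
      have h1 := hpos (-x) hc hx
      have e : ((x : ℂ) + s * I) = -((starRingEnd ℂ) (((-x : ℝ) : ℂ) + s * I)) := by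
        rw [map_add, map_mul, Complex.conj_ofReal, Complex.conj_ofReal, Complex.conj_I]
        push_cast
        ring
      rw [e, hN.symm, RCLike.norm_conj]
      exact h1
  · have h1 := hN.near (x + s * I) (by rw [hre]; exact hc.le) ((hnorm x hx).trans (by norm_num))
    have h2 : ‖F 1‖ ≤ Real.exp (4 * a) * ‖F (u + s * I)‖ := by
      refine segF F hN.diff (u + s * I) 1 (4 * a) (by positivity) fun y hy => ?_
      have hconv : (u + s * I : ℂ) + y * (1 - (u + s * I)) = ((1 - y : ℝ) : ℂ) * (u + s * I) + (y : ℂ) := by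
        push_cast
        ring
      have g1 : 1 / 1000 ≤ ((u + s * I : ℂ) + y * (1 - (u + s * I))).re := by
        rw [hconv, add_re, re_ofReal_mul, hre, ofReal_re]
        nlinarith [hy.1, hy.2]
      have g2 : ‖(u + s * I : ℂ) + y * (1 - (u + s * I))‖ ≤ 20 := by
        rw [hconv]
        refine (norm_add_le _ _).trans ?_
        rw [norm_mul, Complex.norm_real, Complex.norm_real, Real.norm_eq_abs, Real.norm_eq_abs,
          abs_of_nonneg hy.1, abs_of_nonneg (by linarith [hy.2] : (0 : ℝ) ≤ 1 - y)]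
        have := hnorm u hu
        nlinarith [hy.1, hy.2, norm_nonneg ((u : ℂ) + s * I)]
      obtain ⟨g3, g4⟩ := hN.far _ g1 g2
      refine ⟨g3, ?_⟩
      have g5 : ‖logDeriv F ((u + s * I : ℂ) + y * (1 - (u + s * I)))‖ ≤ 2 * a := by
        have := norm_add_le (logDeriv F ((u + s * I : ℂ) + y * (1 - (u + s * I))) - (a : ℂ)) (a : ℂ)
        rw [sub_add_cancel, Complex.norm_real, Real.norm_eq_abs, abs_of_pos ha] at this
        linarith
      have g6 : ‖(1 : ℂ) - (u + s * I)‖ ≤ 2 := by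
        have e : (1 : ℂ) - (u + s * I) = ((1 - u : ℝ) : ℂ) + ((-s : ℝ) : ℂ) * I := by push_cast; ring
        rw [e]
        refine (norm_add_le _ _).trans ?_
        rw [norm_mul, Complex.norm_I, mul_one, Complex.norm_real, Complex.norm_real, Real.norm_eq_abs,
          Real.norm_eq_abs, abs_neg]
        have : |1 - u| ≤ 1 := by
          rw [abs_le]
          constructor <;> linarith
        linarith
      calc ‖logDeriv F ((u + s * I : ℂ) + y * (1 - (u + s * I)))‖ * ‖(1 : ℂ) - (u + s * I)‖ ≤ 2 * a * 2 := by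
            gcongr
        _ = 4 * a := by ring
    calc ‖F (x + s * I)‖ ≤ ‖F 1‖ * Real.exp (-(9 / 10 * a)) := h1
      _ ≤ ‖F 1‖ * 1 := by
          apply mul_le_mul_of_nonneg_left _ (norm_nonneg _)
          rw [Real.exp_le_one_iff]
          linarith
      _ = ‖F 1‖ := mul_one _
      _ ≤ Real.exp (4 * a) * ‖F (u + s * I)‖ := h2
      _ ≤ Real.exp (8 * a) * ‖F (u + s * I)‖ := by
          apply mul_le_mul_of_nonneg_right _ (norm_nonneg _)
          exact Real.exp_le_exp.2 (by linarith)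

theorem sNG (hsc1 : SC1) (hsc2 : SC2) : S_NG := by
  obtain ⟨cs, Cs, as, Ts, hcs, hCs, has, hTs, hscale⟩ := scale hsc1 hsc2 1 one_pos
  intro B R hB hR
  refine ⟨max R (B / cs), hR.trans (le_max_left _ _), fun K hK => ?_⟩
  have hKR : R ≤ K := (le_max_left _ _).trans hK
  have hKB : B ≤ cs * K := by
    have := (le_max_right R (B / cs)).trans hK
    rw [div_le_iff₀ hcs] at this
    linarith
  have hK1 : 1 ≤ K := hR.trans hKR
  have hK0 : 0 < K := by linarith
  refine ⟨8 * K, 1 / (400 * K), by positivity, by positivity, fun Y hY => ?_⟩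
  refine ⟨Cs * (Y + 1), max Ts (max (Real.exp 400) (16 * (Y + 1))), ⌈as⌉₊ + 1, by positivity,
    hTs.trans (le_max_left _ _), ?_⟩
  intro T n hT hn hnκ
  have hT1 : Ts ≤ T := (le_max_left _ _).trans hT
  have hT3 : Real.exp 400 ≤ T := ((le_max_left _ _).trans (le_max_right _ _)).trans hT
  have hT4 : 16 * (Y + 1) ≤ T := ((le_max_right _ _).trans (le_max_right _ _)).trans hT
  have hTp : 0 < T := lt_of_lt_of_le (Real.exp_pos _) hT3
  have hL : 400 ≤ Real.log T := (Real.le_log_iff_exp_le hTp).2 hT3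
  have hL0 : 0 < Real.log T := by linarith
  have hn1 : (as : ℝ) ≤ n := by
    have : ⌈as⌉₊ ≤ n := by omega
    exact (Nat.le_ceil as).trans (by exact_mod_cast this)
  have hn1' : (1 : ℝ) ≤ n := has.trans hn1
  obtain ⟨a, ha⟩ : ∃ a : ℝ, a = K * n := ⟨_, rfl⟩
  have ha1 : as ≤ a := by
    rw [ha]
    nlinarith
  have ha0 : 0 < a := by rw [ha]; positivity
  have haL : a ≤ Real.log T / 400 := by
    rw [ha]
    calc K * n ≤ K * (1 / (400 * K) * Real.log T) := mul_le_mul_of_nonneg_left hnκ hK0.le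
      _ = Real.log T / 400 := by field_simp
  have hra : ra T a = K * ra T n := by
    rw [ra_eq, ra_eq, ha]
    ring
  obtain ⟨r, hr⟩ : ∃ r : ℝ, r = ra T n := ⟨_, rfl⟩
  have hr0 : 0 < r := by rw [hr, ra_eq]; positivity
  have hr1 : r ≤ 1 := by
    have h1 : ra T a ≤ 1 := by
      rw [ra_eq, div_le_one hL0]
      linarith
    rw [hra, ← hr] at h1
    nlinarith
  rw [← hr] at hra ⊢
  have hW : Y * r ≤ T / 8 := by nlinarith
  refine le_trans (measure_mono ?_) ((hscale T a (Y * r) hT1 ha1 haL (by positivity) hW).trans ?_)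
  · rintro t ⟨ht1, ht2, w, hw1, hw2, hw3⟩
    refine ⟨ht1, ht2, t + r * w.im, ?_, fun hG => ?_⟩
    · rw [add_sub_cancel_left, abs_mul, abs_of_pos hr0, mul_comm]
      exact mul_le_mul_of_nonneg_right hw2 hr0.le
    · obtain ⟨T', t', hT', ht', hN⟩ := hG
      obtain ⟨k1, k2⟩ := ra_cmp hTp hL ha0 hT'
      rw [hra] at k1 k2 ht'
      obtain ⟨r', hr'⟩ : ∃ r' : ℝ, r' = ra T' a := ⟨_, rfl⟩
      rw [← hr'] at k1 k2 hN
      have hr'0 : 0 < r' := by
        have : 0 < K * r := by positivity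
        linarith
      have g := growN ha0 hN (r * w.re / r') (r * K / r') ((t + r * w.im - t') / r') (by
          rw [abs_div, abs_of_pos hr'0, div_le_iff₀ hr'0, abs_mul, abs_of_pos hr0]
          have h1 : r * |w.re| ≤ r * K := mul_le_mul_of_nonneg_left (hw1.trans hKR) hr0.le
          linarith) (by
          rw [le_div_iff₀ hr'0]
          linarith) (by
          rw [div_le_iff₀ hr'0]
          linarith) (by
          rw [abs_div, abs_of_pos hr'0, div_le_iff₀ hr'0]
          linarith)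
      have hr'c : (r' : ℂ) ≠ 0 := by exact_mod_cast hr'0.ne'
      have e1 : I * (t' : ℂ) + (r' : ℂ) * (((r * w.re / r' : ℝ) : ℂ) + (((t + r * w.im - t') / r' : ℝ) : ℂ) * I) =
          I * (t : ℂ) + (r : ℂ) * w := by
        have hw : w = (w.re : ℂ) + (w.im : ℂ) * I := (Complex.re_add_im w).symm
        conv_rhs => rw [hw]
        push_cast
        field_simp
        ring
      have e2 : I * (t' : ℂ) + (r' : ℂ) * (((r * K / r' : ℝ) : ℂ) + (((t + r * w.im - t') / r' : ℝ) : ℂ) * I) =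
          I * ((t + r * w.im : ℝ) : ℂ) + (r * K : ℝ) := by
        push_cast
        field_simp
        ring
      rw [e1, e2] at g
      have e3 : 8 * K * n = 8 * a := by rw [ha]; ring
      rw [e3] at hw3
      linarith
  · apply ENNReal.ofReal_le_ofReal
    have h1 : (Y * r + ra T a) / ra T a ≤ Y + 1 := by
      rw [hra, div_le_iff₀ (by positivity)]
      have : r ≤ K * r := by nlinarith
      nlinarith
    have h2 : Real.exp (-(cs * a)) ≤ Real.exp (-(B * n)) := by
      apply Real.exp_le_exp.2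
      have : B * n ≤ cs * a := by
        rw [ha, ← mul_assoc]
        exact mul_le_mul_of_nonneg_right hKB (by linarith)
      linarith
    have h3 : 0 ≤ (Y * r + ra T a) / ra T a := by
      rw [hra]
      positivity
    calc Cs * T * ((Y * r + ra T a) / ra T a) * Real.exp (-(cs * a)) ≤
          Cs * T * (Y + 1) * Real.exp (-(B * n)) := by gcongr
      _ = Cs * (Y + 1) * T * Real.exp (-(B * n)) := by ring

end Pool.Agent.Zk41.DH
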