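import Pool.Agent.Zk41.DH.ZC
import Pool.Agent.Zk41.DH.NG
import Pool.Agent.W186.SD.MainD
import Pool.Agent.W655.SD.SC2

set_option autoImplicit false

/-!
# Tasks S_ZC and S_NG of project DH4 (helper41)
-/

namespace Pool.Agent.Zk41.DH

theorem sc2 : Pool.Agent.H24R2.DZ.SC2 :=
  Pool.Agent.W655.SD.sc2 Pool.Agent.W261.SD.ssq Pool.Agent.W688.SD.shar

theorem zc : Pool.Agent.Zk1.DH.S_ZC := sZC Pool.Agent.W186.SD.sc1 sc2

theorem ng : Pool.Agent.Zk1.DH.S_NG := sNG Pool.Agent.W186.SD.sc1 sc2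

end Pool.Agent.Zk41.DH
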