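import Mathlib

set_option autoImplicit false

/-!
# Covering lemma for bad heights (project DH4, helper41)
-/

namespace Pool.Agent.Zk41.DH

open MeasureTheory Set

/-- The points at distance at most `W` from a point whose `δ`-neighbourhood is contained in `B`. -/
theorem cov (δ W : ℝ) (hδ : 0 < δ) (hW : 0 ≤ W) (B : Set ℝ) :
    volume {t : ℝ | ∃ y : ℝ, |y - t| ≤ W ∧ Icc (y - δ) (y + δ) ⊆ B} ≤
      ENNReal.ofReal ((2 * W + δ) / δ) * volume B := by
  set M : Set ℤ := {m : ℤ | Ico (m * δ) ((m + 1) * δ) ⊆ B} with hM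
  have h1 : {t : ℝ | ∃ y : ℝ, |y - t| ≤ W ∧ Icc (y - δ) (y + δ) ⊆ B} ⊆
      ⋃ m ∈ M, Icc ((m : ℝ) * δ - W) ((m + 1) * δ + W) := by
    rintro t ⟨y, hy, hyB⟩
    have f1 : ((⌊y / δ⌋ : ℤ) : ℝ) * δ ≤ y := by
      rw [← le_div_iff₀ hδ]
      exact Int.floor_le _
    have f2 : y < (((⌊y / δ⌋ : ℤ) : ℝ) + 1) * δ := by
      rw [← div_lt_iff₀ hδ]
      exact Int.lt_floor_add_one _
    simp only [mem_iUnion, exists_prop]
    refine ⟨⌊y / δ⌋, ?_, ?_⟩
    · rw [hM]
      intro x hx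
      apply hyB
      have e1 := hx.1
      have e2 := hx.2
      constructor
      · nlinarith
      · nlinarith
    · rw [abs_le] at hy
      constructor <;> linarith [hy.1, hy.2]
  have h2 : volume (⋃ m ∈ M, Ico ((m : ℝ) * δ) ((m + 1) * δ)) =
      ∑' m : M, volume (Ico ((m : ℤ) * δ : ℝ) (((m : ℤ) + 1) * δ)) := by
    apply measure_biUnion (to_countable M)
    · intro a _ b _ hab
      rw [Function.onFun, Set.disjoint_left]
      intro x hx1 hx2
      apply hab
      have g1 : (a : ℝ) * δ < (b + 1) * δ := lt_of_le_of_lt hx1.1 hx2.2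
      have g2 : (b : ℝ) * δ < (a + 1) * δ := lt_of_le_of_lt hx2.1 hx1.2
      have g3 : (a : ℝ) < b + 1 := lt_of_mul_lt_mul_right g1 hδ.le
      have g4 : (b : ℝ) < a + 1 := lt_of_mul_lt_mul_right g2 hδ.le
      have g5 : a < b + 1 := by exact_mod_cast g3
      have g6 : b < a + 1 := by exact_mod_cast g4
      omega
    · intro m _
      exact measurableSet_Ico
  have h3 : ∀ m : ℤ, volume (Icc ((m : ℝ) * δ - W) ((m + 1) * δ + W)) =
      ENNReal.ofReal ((2 * W + δ) / δ) * volume (Ico ((m : ℝ) * δ) ((m + 1) * δ)) := by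
    intro m
    rw [Real.volume_Icc, Real.volume_Ico, ← ENNReal.ofReal_mul (by positivity)]
    congr 1
    field_simp
    ring
  calc volume {t : ℝ | ∃ y : ℝ, |y - t| ≤ W ∧ Icc (y - δ) (y + δ) ⊆ B}
      ≤ volume (⋃ m ∈ M, Icc ((m : ℝ) * δ - W) ((m + 1) * δ + W)) := measure_mono h1
    _ ≤ ∑' m : M, volume (Icc ((m : ℤ) * δ - W : ℝ) (((m : ℤ) + 1) * δ + W)) :=
        measure_biUnion_le volume (to_countable M) _
    _ = ∑' m : M, ENNReal.ofReal ((2 * W + δ) / δ) * volume (Ico ((m : ℤ) * δ : ℝ) (((m : ℤ) + 1) * δ)) := by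
        congr 1
        ext m
        exact h3 m
    _ = ENNReal.ofReal ((2 * W + δ) / δ) * ∑' m : M, volume (Ico ((m : ℤ) * δ : ℝ) (((m : ℤ) + 1) * δ)) :=
        ENNReal.tsum_mul_left
    _ = ENNReal.ofReal ((2 * W + δ) / δ) * volume (⋃ m ∈ M, Ico ((m : ℝ) * δ) ((m + 1) * δ)) := by rw [h2]
    _ ≤ ENNReal.ofReal ((2 * W + δ) / δ) * volume B := by
        gcongr
        intro x hx
        simp only [mem_iUnion, exists_prop] at hx
        obtain ⟨m, hm, hx⟩ := hx
        exact hm hx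

/-- The geometric sum. -/
theorem geo' (c : ℝ) (hc : 0 < c) (x : ℝ) (hx : 1 ≤ x) (J : ℕ) :
    ∑ j ∈ Finset.range J, Real.exp (-(c * (2 ^ j * x))) ≤
      Real.exp (-(c * x)) * (1 / (1 - Real.exp (-c))) := by
  have hq0 : 0 ≤ Real.exp (-c) := (Real.exp_pos _).le
  have hq1 : Real.exp (-c) < 1 := Real.exp_lt_one_iff.2 (by linarith)
  have h1 : ∀ i ∈ Finset.range J, Real.exp (-(c * (2 ^ i * x))) ≤
      Real.exp (-(c * x)) * Real.exp (-c) ^ i := by
    intro i _
    rw [← Real.exp_nat_mul, ← Real.exp_add]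
    apply Real.exp_le_exp.2
    have h3 : ((i : ℝ) + 1) ≤ 2 ^ i := by
      have : i + 1 ≤ 2 ^ i := Nat.lt_two_pow_self (n := i)
      exact_mod_cast this
    have h2 : x + i ≤ 2 ^ i * x := by
      have : (0 : ℝ) ≤ i := Nat.cast_nonneg i
      nlinarith
    nlinarith
  refine (Finset.sum_le_sum h1).trans ?_
  rw [← Finset.mul_sum]
  apply mul_le_mul_of_nonneg_left _ (Real.exp_pos _).le
  have h5 := (summable_geometric_of_lt_one hq0 hq1).sum_le_tsum (Finset.range J)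
    (fun i _ => pow_nonneg hq0 i)
  rw [tsum_geometric_of_lt_one hq0 hq1] at h5
  rw [one_div]
  exact h5

end Pool.Agent.Zk41.DH
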