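import Pool.Agent.Zk41.DH.Pt
import Pool.Agent.W327.SD.SFar

set_option autoImplicit false

/-!
# The measure of the heights near zeros far from the line (project DH4, helper41)
-/

namespace Pool.Agent.Zk41.DH

open Complex Filter Topology MeasureTheory Set
open Pool.Agent.H24R2.JP (XX)
open Pool.Agent.W190 (Dens carlson ZF mem_ZF)
open H353 (FF mu mu_pos)

/-- Few heights are near zeros with `Re ≥ 1/100`. -/
theorem farm : ∃ C : ℝ, 0 < C ∧ ∀ T W : ℝ, 2 ≤ T → 0 ≤ W → W ≤ T / 4 →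
    volume {t : ℝ | T / 2 ≤ t ∧ t ≤ 3 * T ∧ ∃ z : ℂ, XX z = 0 ∧ 1 / 100 ≤ z.re ∧ |z.im - t| ≤ W} ≤
      ENNReal.ofReal (C * W * T ^ (1 - 3 / 10000 : ℝ)) := by
  obtain ⟨C, hC, hD⟩ := carlson (1 / 2 + 1 / 100) (1 / 10000) (by norm_num) (by norm_num)
    (by norm_num)
  refine ⟨2 * (C * 4), by positivity, ?_⟩
  intro T W hT hW0 hW
  set S : Finset ℂ := ZF (1 / 2 + 1 / 100) (4 * T - 3) with hS
  have hmem : ∀ ρ : ℂ, ρ ∈ S ↔ FF ρ = 0 ∧ 1 / 2 + 1 / 100 ≤ ρ.re ∧ |ρ.im| ≤ 4 * T := by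
    intro ρ
    rw [hS, mem_ZF]
    have e : 4 * T - 3 + 3 = 4 * T := by ring
    rw [e]
  have hsub : {t : ℝ | T / 2 ≤ t ∧ t ≤ 3 * T ∧ ∃ z : ℂ, XX z = 0 ∧ 1 / 100 ≤ z.re ∧ |z.im - t| ≤ W} ⊆
      ⋃ ρ ∈ S, Icc (|ρ.im| - W) (|ρ.im| + W) := by
    rintro t ⟨ht1, ht2, z, hz, hre, him⟩
    rw [abs_le] at him
    have him0 : 0 ≤ z.im := by linarith
    simp only [mem_iUnion, exists_prop]
    refine ⟨1 / 2 + z, (hmem _).2 ⟨W327.SD.FF_of_XX hz, ?_, ?_⟩, ?_⟩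
    · simp; linarith
    · simp only [add_im, div_ofNat_im, one_im, zero_div, zero_add]
      rw [abs_of_nonneg him0]; linarith
    · simp only [add_im, div_ofNat_im, one_im, zero_div, zero_add]
      rw [abs_of_nonneg him0]
      constructor <;> linarith
  have hsum := hD (4 * T) (by linarith) S (fun ρ hρ => (hmem ρ).1 hρ)
  have hcard : (S.card : ℝ) ≤ ∑ ρ ∈ S, (mu ρ : ℝ) := by
    rw [Finset.card_eq_sum_ones]
    push_cast
    refine Finset.sum_le_sum fun ρ hρ => ?_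
    exact_mod_cast mu_pos ρ ((hmem ρ).1 hρ).1
  have hpow : (4 * T) ^ (4 * (1 / 2 + 1 / 100) * (1 - (1 / 2 + 1 / 100)) + 1 / 10000 : ℝ) ≤
      4 * T ^ (1 - 3 / 10000 : ℝ) := by
    have e : (4 * (1 / 2 + 1 / 100) * (1 - (1 / 2 + 1 / 100)) + 1 / 10000 : ℝ) = 1 - 3 / 10000 := by
      norm_num
    rw [e]
    calc (4 * T) ^ (1 - 3 / 10000 : ℝ) = 4 ^ (1 - 3 / 10000 : ℝ) * T ^ (1 - 3 / 10000 : ℝ) :=
          Real.mul_rpow (by norm_num) (by linarith)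
      _ ≤ 4 ^ (1 : ℝ) * T ^ (1 - 3 / 10000 : ℝ) := by
          gcongr
          · norm_num
          · norm_num
      _ = 4 * T ^ (1 - 3 / 10000 : ℝ) := by rw [Real.rpow_one]
  have hfin : 2 * W * (S.card : ℝ) ≤ 2 * (C * 4) * W * T ^ (1 - 3 / 10000 : ℝ) := by
    have h1 := mul_le_mul_of_nonneg_left hpow hC.le
    have h2 : (S.card : ℝ) ≤ C * 4 * T ^ (1 - 3 / 10000 : ℝ) := by linarith
    have h3 := mul_le_mul_of_nonneg_left h2 (by positivity : (0 : ℝ) ≤ 2 * W)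
    linarith
  calc volume {t : ℝ | T / 2 ≤ t ∧ t ≤ 3 * T ∧ ∃ z : ℂ, XX z = 0 ∧ 1 / 100 ≤ z.re ∧ |z.im - t| ≤ W}
      ≤ volume (⋃ ρ ∈ S, Icc (|ρ.im| - W) (|ρ.im| + W)) := measure_mono hsub
    _ ≤ ∑ ρ ∈ S, volume (Icc (|ρ.im| - W) (|ρ.im| + W)) := measure_biUnion_finset_le S _
    _ = ∑ ρ ∈ S, ENNReal.ofReal (2 * W) := by
        refine Finset.sum_congr rfl fun ρ _ => ?_
        rw [Real.volume_Icc]
        congr 1; ring
    _ = ENNReal.ofReal (2 * W * (S.card : ℝ)) := by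
        have e : ENNReal.ofReal (2 * W * (S.card : ℝ)) = ENNReal.ofReal (2 * W) * ENNReal.ofReal (S.card : ℝ) :=
          ENNReal.ofReal_mul (by positivity)
        rw [Finset.sum_const, nsmul_eq_mul, mul_comm, e, ENNReal.ofReal_natCast]
    _ ≤ _ := ENNReal.ofReal_le_ofReal hfin

end Pool.Agent.Zk41.DH
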