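import Pool.Agent.Zk1.DH.Spec
import Pool.Agent.H24R2.DZ.XB
import Pool.Agent.W571.SD.Mid
import Pool.Agent.W688.SD.SHar

set_option autoImplicit false

/-!
# Pointwise bounds for the logarithmic derivative of zeta (project DH4, helper41)
-/

namespace Pool.Agent.Zk41.DH

open Complex Filter Topology MeasureTheory Set
open Pool.Agent.H24R2.JP (XX HH Om)
open Pool.Agent.H24R2.JP.StirAux
open Pool.Agent.H24R2.DZ

theorem XX_diff : Differentiable ℂ XX := by
  have h : Differentiable ℂ completedRiemannZeta₀ := differentiable_completedZeta₀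
  unfold Pool.Agent.H24R2.JP.XX
  refine Differentiable.add_const _ (Differentiable.mul (by fun_prop) ?_)
  exact h.comp (by fun_prop)

/-- The normalised local situation gives the logarithmic derivative at the points of the right half plane. -/
theorem nn_pt {a η T' t' : ℝ} {z : ℂ} (hr : 0 < ra T' a)
    (hN : NN a η (fun z => XX (I * t' + ra T' a * z))) (h1 : ra T' a / 1000 ≤ z.re)
    (h2 : z.re ≤ 19 * ra T' a) (h3 : |z.im - t'| ≤ ra T' a) :
    XX z ≠ 0 ∧ ‖logDeriv XX z‖ * ra T' a ≤ |a| + η * a := by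
  obtain ⟨r, hrd⟩ : ∃ r : ℝ, r = ra T' a := ⟨_, rfl⟩
  rw [← hrd] at hr h1 h2 h3 hN ⊢
  obtain ⟨w, hw⟩ : ∃ w : ℂ, w = ⟨z.re / r, (z.im - t') / r⟩ := ⟨_, rfl⟩
  have hzw : I * (t' : ℂ) + (r : ℂ) * w = z := by
    rw [hw]
    apply Complex.ext
    · simp only [add_re, mul_re, I_re, ofReal_re, I_im, ofReal_im]
      field_simp
      ring
    · simp only [add_im, mul_im, I_re, ofReal_re, I_im, ofReal_im]
      field_simp
      ring
  have hw1 : 1 / 1000 ≤ w.re := by
    rw [hw]
    show 1 / 1000 ≤ z.re / r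
    rw [le_div_iff₀ hr]
    linarith
  have hw2 : ‖w‖ ≤ 20 := by
    refine (Complex.norm_le_abs_re_add_abs_im w).trans ?_
    have e1 : |w.re| ≤ 19 := by
      rw [hw]
      show |z.re / r| ≤ 19
      rw [abs_div, abs_of_pos hr, div_le_iff₀ hr, abs_of_nonneg (by linarith [div_pos hr (by norm_num : (0:ℝ) < 1000)])]
      exact h2
    have e2 : |w.im| ≤ 1 := by
      rw [hw]
      show |(z.im - t') / r| ≤ 1
      rw [abs_div, abs_of_pos hr, div_le_iff₀ hr]
      linarith
    linarith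
  obtain ⟨g1, g2⟩ := hN.far w hw1 hw2
  simp only [hzw] at g1
  refine ⟨g1, ?_⟩
  have hd : DifferentiableAt ℂ (fun z : ℂ => I * (t' : ℂ) + (r : ℂ) * z) w := by fun_prop
  have hl : logDeriv (fun z => XX (I * t' + r * z)) w = logDeriv XX z * r := by
    have := logDeriv_comp (f := XX) (g := fun z : ℂ => I * (t' : ℂ) + (r : ℂ) * z) (x := w)
      (XX_diff _) hd
    have e : (XX ∘ fun z : ℂ => I * (t' : ℂ) + (r : ℂ) * z) = fun z => XX (I * t' + r * z) := rfl
    rw [e] at this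
    rw [this, hzw]
    congr 1
    rw [deriv_const_add, deriv_const_mul _ differentiableAt_id]
    simp
  rw [hl] at g2
  have g3 : ‖logDeriv XX z * r‖ ≤ ‖(a : ℂ)‖ + η * a := by
    have := norm_add_le (logDeriv XX z * r - (a : ℂ)) (a : ℂ)
    rw [sub_add_cancel] at this
    linarith
  rw [norm_mul, Complex.norm_real, Complex.norm_real, Real.norm_eq_abs, Real.norm_eq_abs, abs_of_pos hr] at g3
  exact g3

/-- `XX = HH * ζ` in the upper half plane. -/
theorem xx_fac : ∀ z : ℂ, 0 < z.im → XX z = HH z * riemannZeta (1 / 2 + z) :=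
  Pool.Agent.H24R2.JP.zetaS.1

theorem zeta_ne {z : ℂ} (hz : 0 < z.im) (h : XX z ≠ 0) : riemannZeta (1 / 2 + z) ≠ 0 := by
  rw [xx_fac z hz] at h
  exact right_ne_zero_of_mul h

theorem logD {z : ℂ} (hz : 0 < z.im) (h : XX z ≠ 0) :
    logDeriv XX z = logDeriv HH z + logDeriv riemannZeta (1 / 2 + z) := by
  have n2 := zeta_ne hz h
  have hζd : DifferentiableAt ℂ riemannZeta (1 / 2 + z) := by
    apply differentiableAt_riemannZeta
    intro h
    have := congrArg Complex.im h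
    simp at this
    linarith
  have hcomp : HasDerivAt (fun z : ℂ => riemannZeta (1 / 2 + z))
      (deriv riemannZeta (1 / 2 + z)) z := by
    have h0 : HasDerivAt (fun z : ℂ => 1 / 2 + z) 1 z := (hasDerivAt_id _).const_add _
    have := HasDerivAt.comp z hζd.hasDerivAt h0
    rwa [mul_one] at this
  have hev : XX =ᶠ[𝓝 z] fun z => HH z * riemannZeta (1 / 2 + z) := by
    filter_upwards [upper_open.mem_nhds hz] with z hz'
    exact xx_fac z hz'
  rw [logDeriv_apply, hev.deriv_eq, hev.eq_of_nhds]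
  have h5 := ((HH_diff hz).hasDerivAt.mul hcomp).deriv
  have e2 : (HH * fun z : ℂ => riemannZeta (1 / 2 + z)) =
    fun z => HH z * riemannZeta (1 / 2 + z) := rfl
  rw [e2] at h5
  rw [h5, logDeriv_apply, logDeriv_apply]
  have n1 := HH_ne hz
  generalize deriv riemannZeta (1 / 2 + z) = a at *
  generalize riemannZeta (1 / 2 + z) = b at *
  generalize deriv HH z = c at *
  generalize HH z = d at *
  field_simp

/-- From `XX` to zeta, for the logarithmic derivatives. -/
theorem ldz : ∃ K : ℝ, 1 ≤ K ∧ ∀ z : ℂ, 0 ≤ z.re → z.re ≤ 2 → 400 ≤ z.im → XX z ≠ 0 →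
    riemannZeta (1 / 2 + z) ≠ 0 ∧
    ‖logDeriv riemannZeta (1 / 2 + z)‖ ≤ ‖logDeriv XX z‖ + K + Real.log z.im / 2 := by
  obtain ⟨K, hK, h⟩ := XBAux.hhb
  refine ⟨K, hK, fun z h1 h2 h3 h4 => ?_⟩
  have h0 : 0 < z.im := by linarith
  refine ⟨zeta_ne h0 h4, ?_⟩
  have hz : I * (z.im : ℂ) + (z.re : ℂ) = z := by
    apply Complex.ext <;> simp
  obtain ⟨-, -, -, g⟩ := h 2 z.im (z.re : ℂ) (by norm_num) h3 (by linarith) (by
    rw [Complex.norm_real, Real.norm_eq_abs, abs_of_nonneg h1]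
    exact h2)
  rw [hz] at g
  have e : logDeriv riemannZeta (1 / 2 + z) = logDeriv XX z - (logDeriv HH z - (Om z.im : ℂ)) - (Om z.im : ℂ) := by
    rw [logD h0 h4]
    ring
  rw [e]
  have hOm : ‖(Om z.im : ℂ)‖ = Real.log z.im / 2 := by
    rw [Complex.norm_real, Real.norm_eq_abs, Om, abs_of_nonneg (by
      have := Real.log_nonneg (by linarith : (1 : ℝ) ≤ z.im)
      linarith)]
  have g1 := norm_sub_le (logDeriv XX z - (logDeriv HH z - (Om z.im : ℂ))) (Om z.im : ℂ)
  have g2 := norm_sub_le (logDeriv XX z) (logDeriv HH z - (Om z.im : ℂ))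
  rw [hOm] at g1
  linarith

/-- The trivial region. -/
theorem triv : ∃ C : ℝ, 0 < C ∧ ∀ s : ℂ, 2 ≤ s.re → riemannZeta s ≠ 0 ∧ ‖logDeriv riemannZeta s‖ ≤ C := by
  have h2 : LSeriesSummable (fun n => ((ArithmeticFunction.vonMangoldt n : ℝ) : ℂ)) (2 : ℂ) :=
    ArithmeticFunction.LSeriesSummable_vonMangoldt (by norm_num)
  refine ⟨∑' n, ‖LSeries.term (fun n => ((ArithmeticFunction.vonMangoldt n : ℝ) : ℂ)) (2 : ℂ) n‖ + 1, by
    have : 0 ≤ ∑' n, ‖LSeries.term (fun n => ((ArithmeticFunction.vonMangoldt n : ℝ) : ℂ)) (2 : ℂ) n‖ :=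
      tsum_nonneg fun _ => norm_nonneg _
    linarith, fun s hs => ?_⟩
  have hs1 : 1 < s.re := by linarith
  refine ⟨riemannZeta_ne_zero_of_one_lt_re hs1, ?_⟩
  have hsum : LSeriesSummable (fun n => ((ArithmeticFunction.vonMangoldt n : ℝ) : ℂ)) s :=
    ArithmeticFunction.LSeriesSummable_vonMangoldt hs1
  have e : logDeriv riemannZeta s = -LSeries (fun n => ((ArithmeticFunction.vonMangoldt n : ℝ) : ℂ)) s := by
    rw [ArithmeticFunction.LSeries_vonMangoldt_eq_deriv_riemannZeta_div hs1, logDeriv_apply]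
    ring
  rw [e, norm_neg]
  have h3 : ‖LSeries (fun n => ((ArithmeticFunction.vonMangoldt n : ℝ) : ℂ)) s‖ ≤
      ∑' n, ‖LSeries.term (fun n => ((ArithmeticFunction.vonMangoldt n : ℝ) : ℂ)) (2 : ℂ) n‖ := by
    unfold LSeries
    refine (norm_tsum_le_tsum_norm hsum.norm).trans ?_
    refine hsum.norm.tsum_le_tsum (fun n => ?_) h2.norm
    exact LSeries.norm_term_le_of_re_le_re _ (by simpa using hs) n
  linarith

/-- The far region: from a zero-free rectangle. -/
theorem farld : ∃ C T0 : ℝ, 0 < C ∧ 1 ≤ T0 ∧ ∀ z : ℂ, T0 ≤ z.im → 1 / 50 ≤ z.re → z.re ≤ 2 →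
    (∀ z' : ℂ, 1 / 100 ≤ z'.re → |z'.im - z.im| ≤ 500 → XX z' ≠ 0) →
    XX z ≠ 0 ∧ ‖logDeriv XX z‖ ≤ C * Real.log z.im := by
  obtain ⟨C, hC, hsh⟩ := Pool.Agent.W688.SD.shar
  obtain ⟨K, T0, hT0, hxb⟩ := xb 1000
  obtain ⟨K', hK'⟩ : ∃ K' : ℝ, K' = max K 1 := ⟨_, rfl⟩
  have hK1 : 1 ≤ K' := by rw [hK']; exact le_max_right _ _
  have hKK : K ≤ K' := by rw [hK']; exact le_max_left _ _
  refine ⟨C * (2 * K'), T0 + 1000, by positivity, by linarith, ?_⟩
  intro z hz1 hz2 hz3 hfree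
  have hz0 : 0 < z.im := by linarith
  have hlog : 0 ≤ Real.log z.im := Real.log_nonneg (by linarith)
  refine ⟨hfree z (by linarith) (by simp), ?_⟩
  have g1 := hsh (2 * K' * Real.log z.im) (fun w => XX (I * z.im + 20 * w)) (by positivity) (by
    intro w hw1 hw2 hw3
    refine ⟨(XX_diff _).comp w (by fun_prop), ?_, ?_⟩
    · apply hfree
      · simp
        linarith
      · simp
        linarith
    · have hn : ‖(20 : ℂ) * w‖ ≤ 1000 := by
        rw [norm_mul]
        have h5 := Complex.norm_le_abs_re_add_abs_im w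
        have h6 : |w.re| ≤ 25 := by
          rw [abs_of_nonneg (by linarith)]
          exact hw2
        have h7 : ‖(20 : ℂ)‖ = 20 := by norm_num
        rw [h7]
        linarith
      obtain ⟨k1, -⟩ := hxb z.im (20 * w) (by linarith) hn
      obtain ⟨-, k2⟩ := hxb z.im (20 * 1) (by linarith) (by norm_num)
      obtain ⟨-, k3, -⟩ := k2 (by norm_num)
      have e1 : Real.exp (K * Real.log z.im) ≤ Real.exp (K' * Real.log z.im) :=
        Real.exp_le_exp.2 (mul_le_mul_of_nonneg_right hKK hlog)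
      have e2 : Real.exp (-(K' * Real.log z.im)) ≤ Real.exp (-(K * Real.log z.im)) :=
        Real.exp_le_exp.2 (neg_le_neg (mul_le_mul_of_nonneg_right hKK hlog))
      have hH : ‖HH (I * z.im)‖ ≤ Real.exp (K' * Real.log z.im) * ‖XX (I * z.im + 20 * 1)‖ := by
        have k4 : Real.exp (-(K' * Real.log z.im)) * ‖HH (I * z.im)‖ ≤ ‖XX (I * z.im + 20 * 1)‖ :=
          (mul_le_mul_of_nonneg_right e2 (norm_nonneg _)).trans k3
        calc ‖HH (I * z.im)‖ = Real.exp (K' * Real.log z.im) *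
              (Real.exp (-(K' * Real.log z.im)) * ‖HH (I * z.im)‖) := by
              rw [← mul_assoc, ← Real.exp_add, add_neg_cancel, Real.exp_zero, one_mul]
          _ ≤ _ := mul_le_mul_of_nonneg_left k4 (Real.exp_pos _).le
      calc ‖XX (I * z.im + 20 * w)‖ ≤ Real.exp (K * Real.log z.im) * ‖HH (I * z.im)‖ := k1
        _ ≤ Real.exp (K' * Real.log z.im) * (Real.exp (K' * Real.log z.im) * ‖XX (I * z.im + 20 * 1)‖) := by
            gcongr
        _ = Real.exp (2 * K' * Real.log z.im) * ‖XX (I * z.im + 20 * 1)‖ := by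
            rw [← mul_assoc, ← Real.exp_add]
            congr 2
            ring) (z.re / 20 : ℝ) (by
      rw [Complex.ofReal_re]
      linarith) (by
      rw [Complex.ofReal_re]
      linarith) (by
      rw [Complex.ofReal_im]
      norm_num)
  have hz : I * (z.im : ℂ) + 20 * ((z.re / 20 : ℝ) : ℂ) = z := by
    apply Complex.ext
    · simp
      ring
    · simp
  have hl : logDeriv (fun w => XX (I * z.im + 20 * w)) ((z.re / 20 : ℝ) : ℂ) = logDeriv XX z * 20 := by
    have := logDeriv_comp (f := XX) (g := fun w : ℂ => I * (z.im : ℂ) + 20 * w) (x := ((z.re / 20 : ℝ) : ℂ))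
      (XX_diff _) (by fun_prop)
    have e : (XX ∘ fun w : ℂ => I * (z.im : ℂ) + 20 * w) = fun w => XX (I * z.im + 20 * w) := rfl
    rw [e] at this
    rw [this, hz]
    congr 1
    rw [deriv_const_add, deriv_const_mul _ differentiableAt_id]
    simp
  rw [hl, norm_mul] at g1
  have h7 : ‖(20 : ℂ)‖ = 20 := by norm_num
  rw [h7] at g1
  have h8 : 0 ≤ C * (2 * K' * Real.log z.im) := by positivity
  nlinarith [norm_nonneg (logDeriv XX z)]

end Pool.Agent.Zk41.DH
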