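import Pool.Agent.Zk41.DH.Pt
import Pool.Agent.Zk41.DH.Cov

set_option autoImplicit false

/-!
# Measure of the heights which are bad at one scale (project DH4, helper41)
-/

namespace Pool.Agent.Zk41.DH

open Complex Filter Topology MeasureTheory Set
open Pool.Agent.H24R2.JP (XX)
open Pool.Agent.H24R2.DZ
open Pool.Agent.W571.SD (BB)

/-- The height `y` is good at scale `a`. -/
def Good (η T a y : ℝ) : Prop :=
  ∃ T' t' : ℝ, (T' = T / 2 ∨ T' = 2 * T) ∧ |y - t'| ≤ ra T a / 4 ∧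
    NN a η (fun z => XX (I * t' + ra T' a * z))

theorem ra_eq (T a : ℝ) : ra T a = 2 * a / Real.log T := Pool.Agent.W571.SD.ra_eq T a

theorem bbvol (h1 : SC1) (h2 : SC2) (η : ℝ) (hη : 0 < η) : ∃ c C a0 T0 : ℝ, 0 < c ∧ 0 < C ∧ 1 ≤ a0 ∧ 2 ≤ T0 ∧
    ∀ T a : ℝ, T0 ≤ T → a0 ≤ a → a ≤ Real.log T / 200 →
      volume (BB η T a) ≤ ENNReal.ofReal (C * T * Real.exp (-(c * a))) := by
  obtain ⟨η1, ε1, hη1, hε1, hsc2⟩ := h2 η hη
  obtain ⟨θ, c1, C1, a1, T1, hθ, hθ', hc1, hC1, ha1, hT1, hsc1⟩ := h1 η1 ε1 hη1 hε1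
  obtain ⟨a2, T2, hsc2'⟩ := hsc2 θ hθ hθ'
  refine ⟨c1, C1, max a1 a2, max T1 T2, hc1, hC1, ha1.trans (le_max_left _ _), hT1.trans (le_max_left _ _), ?_⟩
  intro T a hT ha haL
  refine le_trans (measure_mono ?_) (hsc1 T a ((le_max_left _ _).trans hT) ((le_max_left _ _).trans ha) haL)
  intro t0 ht0
  refine ⟨ht0.1, ht0.2.1, fun hG => ht0.2.2 ?_⟩
  exact hsc2' T a t0 ((le_max_right _ _).trans hT) ((le_max_right _ _).trans ha) haL ht0.1 ht0.2.1 hG

/-- The measure of the heights within `W` of a height which is not good at scale `a`. -/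
theorem scale (h1 : SC1) (h2 : SC2) (η : ℝ) (hη : 0 < η) : ∃ c C a0 T0 : ℝ, 0 < c ∧ 0 < C ∧ 1 ≤ a0 ∧ 2 ≤ T0 ∧
    ∀ T a W : ℝ, T0 ≤ T → a0 ≤ a → a ≤ Real.log T / 400 → 0 ≤ W → W ≤ T / 8 →
      volume {t : ℝ | T / 2 ≤ t ∧ t ≤ 3 * T ∧ ∃ y : ℝ, |y - t| ≤ W ∧ ¬ Good η T a y} ≤
        ENNReal.ofReal (C * T * ((W + ra T a) / ra T a) * Real.exp (-(c * a))) := by
  obtain ⟨c, C, a0, T0, hc, hC, ha0, hT0, hbb⟩ := bbvol h1 h2 η hη
  refine ⟨c, 20 * C, a0, 2 * T0 + 100, hc, by positivity, ha0, by linarith, ?_⟩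
  intro T a W hT ha haL hW0 hW
  have hTp : 0 < T := by linarith
  have ha1 : 1 ≤ a := ha0.trans ha
  have hL : 400 ≤ Real.log T := by linarith
  have hlog2 : Real.log 2 ≤ 1 := by
    have := Real.log_le_sub_one_of_pos (show (0 : ℝ) < 2 by norm_num)
    linarith
  have hlog20 : 0 ≤ Real.log 2 := Real.log_nonneg (by norm_num)
  have hLh : Real.log (T / 2) = Real.log T - Real.log 2 := Real.log_div hTp.ne' (by norm_num)
  have hLd : Real.log (2 * T) = Real.log 2 + Real.log T := Real.log_mul (by norm_num) hTp.ne'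
  obtain ⟨r, hr⟩ : ∃ r : ℝ, r = ra T a := ⟨_, rfl⟩
  have hr' : r = 2 * a / Real.log T := by rw [hr, ra_eq]
  have hr0 : 0 < r := by rw [hr']; positivity
  have hr1 : r ≤ 1 / 200 := by
    rw [hr', div_le_iff₀ (by linarith)]
    linarith
  have hTT : 100 ≤ T := by linarith
  have hB1 := hbb (T / 2) a (by linarith) ha (by rw [hLh]; linarith)
  have hB2 := hbb (2 * T) a (by linarith) ha (by rw [hLd]; linarith)
  have hsub : {t : ℝ | T / 2 ≤ t ∧ t ≤ 3 * T ∧ ∃ y : ℝ, |y - t| ≤ W ∧ ¬ Good η T a y} ⊆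
      {t : ℝ | ∃ y : ℝ, |y - t| ≤ W ∧ Icc (y - r / 4) (y + r / 4) ⊆ BB η (T / 2) a} ∪
      {t : ℝ | ∃ y : ℝ, |y - t| ≤ W ∧ Icc (y - r / 4) (y + r / 4) ⊆ BB η (2 * T) a} := by
    rintro t ⟨ht1, ht2, y, hy, hbad⟩
    have hy' := abs_le.1 hy
    rcases le_or_gt y (5 / 4 * T) with hc | hc
    · left
      refine ⟨y, hy, fun x hx => ⟨by linarith [hx.1], by linarith [hx.2], fun hN => hbad ?_⟩⟩
      refine ⟨T / 2, x, Or.inl rfl, ?_, hN⟩
      rw [← hr, abs_le]
      constructor <;> linarith [hx.1, hx.2]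
    · right
      refine ⟨y, hy, fun x hx => ⟨by linarith [hx.1], by linarith [hx.2], fun hN => hbad ?_⟩⟩
      refine ⟨2 * T, x, Or.inr rfl, ?_, hN⟩
      rw [← hr, abs_le]
      constructor <;> linarith [hx.1, hx.2]
  have hfac : (2 * W + r / 4) / (r / 4) ≤ 8 * ((W + r) / r) := by
    rw [div_le_iff₀ (by positivity)]
    have e : 8 * ((W + r) / r) * (r / 4) = 2 * W + 2 * r := by
      field_simp
      ring
    rw [e]
    linarith
  have hfac0 : 0 ≤ (2 * W + r / 4) / (r / 4) := by positivity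
  rw [← hr]
  calc volume {t : ℝ | T / 2 ≤ t ∧ t ≤ 3 * T ∧ ∃ y : ℝ, |y - t| ≤ W ∧ ¬ Good η T a y}
      ≤ ENNReal.ofReal ((2 * W + r / 4) / (r / 4)) * volume (BB η (T / 2) a) +
        ENNReal.ofReal ((2 * W + r / 4) / (r / 4)) * volume (BB η (2 * T) a) := by
        refine (measure_mono hsub).trans ((measure_union_le _ _).trans ?_)
        exact add_le_add (cov (r / 4) W (by positivity) hW0 _) (cov (r / 4) W (by positivity) hW0 _)
    _ ≤ ENNReal.ofReal ((2 * W + r / 4) / (r / 4)) * ENNReal.ofReal (C * (T / 2) * Real.exp (-(c * a))) +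
        ENNReal.ofReal ((2 * W + r / 4) / (r / 4)) * ENNReal.ofReal (C * (2 * T) * Real.exp (-(c * a))) := by
        gcongr
    _ = ENNReal.ofReal ((2 * W + r / 4) / (r / 4) * (C * (5 / 2 * T) * Real.exp (-(c * a)))) := by
        rw [← ENNReal.ofReal_mul hfac0, ← ENNReal.ofReal_mul hfac0, ← ENNReal.ofReal_add (by positivity)
          (by positivity)]
        congr 1
        ring
    _ ≤ ENNReal.ofReal (20 * C * T * ((W + r) / r) * Real.exp (-(c * a))) := by
        apply ENNReal.ofReal_le_ofReal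
        calc (2 * W + r / 4) / (r / 4) * (C * (5 / 2 * T) * Real.exp (-(c * a)))
            ≤ 8 * ((W + r) / r) * (C * (5 / 2 * T) * Real.exp (-(c * a))) :=
              mul_le_mul_of_nonneg_right hfac (by positivity)
          _ = 20 * C * T * ((W + r) / r) * Real.exp (-(c * a)) := by ring

/-- The radii at the neighbouring heights. -/
theorem ra_cmp {T T' a : ℝ} (hTp : 0 < T) (hT : 400 ≤ Real.log T) (ha : 0 < a) (h : T' = T / 2 ∨ T' = 2 * T) :
    ra T a / 2 ≤ ra T' a ∧ ra T' a ≤ 2 * ra T a := by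
  have hlog2 : Real.log 2 ≤ 1 := by
    have := Real.log_le_sub_one_of_pos (show (0 : ℝ) < 2 by norm_num)
    linarith
  have hlog20 : 0 ≤ Real.log 2 := Real.log_nonneg (by norm_num)
  have hL' : Real.log T / 2 ≤ Real.log T' ∧ Real.log T' ≤ 2 * Real.log T := by
    rcases h with rfl | rfl
    · rw [Real.log_div hTp.ne' (by norm_num)]
      constructor <;> linarith
    · rw [Real.log_mul (by norm_num) hTp.ne']
      constructor <;> linarith
  have h0 : 0 < Real.log T := by linarith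
  have h0' : 0 < Real.log T' := by linarith [hL'.1]
  rw [ra_eq, ra_eq]
  constructor
  · rw [div_div, div_le_div_iff_of_pos_left (by positivity) (by positivity) h0']
    linarith [hL'.2]
  · rw [← mul_div_assoc, div_le_div_iff₀ h0' h0]
    nlinarith [hL'.1]

/-- A good height gives the logarithmic derivative at comparable distances. -/
theorem good_pt {η T a : ℝ} {z : ℂ} (hTp : 0 < T) (hT : 400 ≤ Real.log T) (ha : 0 < a) (hη : η ≤ 1)
    (hG : Good η T a z.im) (h1 : ra T a ≤ z.re) (h2 : z.re ≤ 9 * ra T a) :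
    XX z ≠ 0 ∧ ‖logDeriv XX z‖ ≤ 2 * Real.log T := by
  obtain ⟨T', t', hT', ht', hN⟩ := hG
  obtain ⟨k1, k2⟩ := ra_cmp hTp hT ha hT'
  have h0 : 0 < Real.log T := by linarith
  have hr0 : 0 < ra T a := by rw [ra_eq]; positivity
  obtain ⟨g1, g2⟩ := nn_pt (z := z) (by linarith) hN (by linarith) (by linarith) (by linarith)
  refine ⟨g1, ?_⟩
  rw [abs_of_pos ha] at g2
  have h3 : ‖logDeriv XX z‖ * (a / Real.log T) ≤ 2 * a := by
    have e : a / Real.log T = ra T a / 2 := by rw [ra_eq]; ring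
    rw [e]
    calc ‖logDeriv XX z‖ * (ra T a / 2) ≤ ‖logDeriv XX z‖ * ra T' a :=
          mul_le_mul_of_nonneg_left k1 (norm_nonneg _)
      _ ≤ a + η * a := g2
      _ ≤ 2 * a := by nlinarith
  have h4 : ‖logDeriv XX z‖ * a ≤ 2 * Real.log T * a := by
    rw [mul_div_assoc', div_le_iff₀ h0] at h3
    linarith
  exact le_of_mul_le_mul_right h4 ha

end Pool.Agent.Zk41.DH
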