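import Pool.Agent.Zk41.DH.Sc
import Pool.Agent.Zk41.DH.Far

set_option autoImplicit false

/-!
# Zeta in an exponential cone (project DH4, task S_ZC, helper41)
-/

namespace Pool.Agent.Zk41.DH

open Complex Filter Topology MeasureTheory Set
open Pool.Agent.H24R2.JP (XX)
open Pool.Agent.H24R2.DZ (SC1 SC2 ra)
open Pool.Agent.Zk1.DH

/-- The largest scale. -/
theorem exJ {x L : ℝ} (hx : 1 ≤ x) (hxL : x ≤ L / 400) :
    ∃ J : ℕ, (2 : ℝ) ^ J * x ≤ L / 400 ∧ L / 800 < (2 : ℝ) ^ J * x := by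
  have hx0 : 0 < x := by linarith
  obtain ⟨J, h1, h2⟩ := exists_nat_pow_near (x := L / 400 / x) (y := (2 : ℝ)) (by
    rw [le_div_iff₀ hx0]
    linarith) (by norm_num)
  refine ⟨J, (le_div_iff₀ hx0).1 h1, ?_⟩
  rw [div_lt_iff₀ hx0, pow_succ] at h2
  linarith

/-- The deterministic part. -/
theorem zcDet {T x A e K Cf Ct t : ℝ} {J : ℕ} (hL : 400 ≤ Real.log T) (hTp : 1000 ≤ T) (hx : 1 ≤ x) (hA : 1 ≤ A)
    (he : 0 < e) (he1 : e ≤ 1 / 20000) (hK : 1 ≤ K) (hCf : 0 < Cf) (hCt : 0 < Ct)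
    (hA2 : A * Real.exp (Real.log T / 10000) ≤ T / 16)
    (hJ1 : (2 : ℝ) ^ J * x ≤ Real.log T / 400) (hJ2 : Real.log T / 800 < (2 : ℝ) ^ J * x)
    (ht1 : T / 2 ≤ t) (ht2 : t ≤ 3 * T)
    (hldz : ∀ z : ℂ, 0 ≤ z.re → z.re ≤ 2 → 400 ≤ z.im → XX z ≠ 0 →
      riemannZeta (1 / 2 + z) ≠ 0 ∧
      ‖logDeriv riemannZeta (1 / 2 + z)‖ ≤ ‖logDeriv XX z‖ + K + Real.log z.im / 2)
    (hfar : ∀ z : ℂ, T / 4 ≤ z.im → 1 / 50 ≤ z.re → z.re ≤ 2 →
      (∀ z' : ℂ, 1 / 100 ≤ z'.re → |z'.im - z.im| ≤ 500 → XX z' ≠ 0) →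
      XX z ≠ 0 ∧ ‖logDeriv XX z‖ ≤ Cf * Real.log z.im)
    (htriv : ∀ s : ℂ, 2 ≤ s.re → riemannZeta s ≠ 0 ∧ ‖logDeriv riemannZeta s‖ ≤ Ct)
    (hE : ∀ j : ℕ, j ≤ J → ∀ y : ℝ, |y - t| ≤ A * ra T (2 ^ j * x) * Real.exp (18 * e * (2 ^ j * x)) →
      Good 1 T (2 ^ j * x) y)
    (hF : ∀ z : ℂ, 1 / 100 ≤ z.re → |z.im - t| ≤ A * Real.exp (Real.log T / 10000) + 500 → XX z ≠ 0) :
    ZC T (ra T x) A e (2 + 2 * Cf + K + 1 + Ct) t := by
  have hTp0 : 0 < T := by linarith
  have hL0 : 0 < Real.log T := by linarith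
  have hx0 : 0 < x := by linarith
  have hr : ∀ j : ℕ, ra T (2 ^ j * x) = 2 ^ j * ra T x := by
    intro j
    rw [ra_eq, ra_eq]
    ring
  have hr0 : 0 < ra T x := by rw [ra_eq]; positivity
  have hpowJ : ∀ j : ℕ, j ≤ J → (2 : ℝ) ^ j * x ≤ Real.log T / 400 := by
    intro j hj
    refine le_trans ?_ hJ1
    apply mul_le_mul_of_nonneg_right _ hx0.le
    exact pow_le_pow_right₀ (by norm_num) hj
  have hrJ : ∀ j : ℕ, j ≤ J → ra T (2 ^ j * x) ≤ 1 / 200 := by
    intro j hj
    rw [ra_eq, div_le_iff₀ hL0]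
    linarith [hpowJ j hj]
  have hrJ2 : 1 / 400 < ra T (2 ^ J * x) := by
    rw [ra_eq, lt_div_iff₀ hL0]
    linarith
  have hx01 : ra T x ≤ 1 / 200 := by
    have := hrJ 0 (Nat.zero_le _)
    simpa using this
  -- the width
  have hw1 : ∀ u : ℝ, ra T x ≤ u → u ≤ 3 / 2 → wid T (ra T x) A e u ≤ A * Real.exp (Real.log T / 10000) := by
    intro u hu1 hu2
    unfold wid
    have h1 : A * ra T x ≤ A := by nlinarith
    have h2 : e * (u - ra T x) * Real.log T ≤ Real.log T / 10000 := by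
      have : e * (u - ra T x) ≤ 1 / 10000 := by nlinarith
      nlinarith
    have h3 := Real.exp_le_exp.2 h2
    exact mul_le_mul h1 h3 (Real.exp_pos _).le (by linarith)
  -- the statement
  have key : ∀ z : ℂ, ra T x ≤ z.re → |z.im - t| ≤ wid T (ra T x) A e z.re →
      riemannZeta (1 / 2 + z) ≠ 0 ∧
      ‖logDeriv riemannZeta (1 / 2 + z)‖ ≤ (2 + 2 * Cf + K + 1 + Ct) * Real.log T := by
    intro z hz1 hz2
    rcases le_or_gt (3 / 2) z.re with hc | hc
    · obtain ⟨g1, g2⟩ := htriv (1 / 2 + z) (by simp; linarith)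
      refine ⟨g1, g2.trans ?_⟩
      nlinarith [mul_pos hCf hL0]
    · have hw := hw1 z.re hz1 hc.le
      have hz3 := abs_le.1 (hz2.trans hw)
      have hzim : T / 4 ≤ z.im := by linarith
      have hzim2 : z.im ≤ 4 * T := by linarith
      have hzim0 : 0 < z.im := by linarith
      have hlog : Real.log z.im ≤ 2 * Real.log T := by
        have h1 := Real.log_le_log hzim0 hzim2
        rw [Real.log_mul (by norm_num) hTp0.ne'] at h1
        have h2 : Real.log 4 ≤ 3 := by
          have := Real.log_le_sub_one_of_pos (show (0 : ℝ) < 4 by norm_num)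
          linarith
        linarith
      have hXX : XX z ≠ 0 ∧ ‖logDeriv XX z‖ ≤ (2 + 2 * Cf) * Real.log T := by
        rcases le_or_gt z.re (9 * ra T (2 ^ J * x)) with hc2 | hc2
        · -- a scale
          classical
          set j := Nat.findGreatest (fun j => ra T (2 ^ j * x) ≤ z.re) J with hj
          have hj1 : ra T (2 ^ j * x) ≤ z.re :=
            Nat.findGreatest_spec (P := fun j => ra T (2 ^ j * x) ≤ z.re) (Nat.zero_le J)
              (by simpa using hz1)
          have hj2 : j ≤ J := Nat.findGreatest_le J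
          have hj3 : z.re ≤ 9 * ra T (2 ^ j * x) := by
            rcases hj2.lt_or_eq with h | h
            · by_contra hcon
              push Not at hcon
              have h4 : ra T (2 ^ (j + 1) * x) ≤ z.re := by
                rw [hr] at hcon ⊢
                rw [pow_succ]
                have : 0 < (2 : ℝ) ^ j * ra T x := by positivity
                linarith
              have := Nat.le_findGreatest (P := fun j => ra T (2 ^ j * x) ≤ z.re) h h4
              rw [← hj] at this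
              omega
            · rw [h]
              exact hc2
          have hpj : (1 : ℝ) ≤ 2 ^ j := one_le_pow₀ (by norm_num)
          have hrj0 : 0 < ra T (2 ^ j * x) := by rw [hr]; positivity
          have hG := hE j hj2 z.im (hz2.trans (by
            unfold wid
            have h5 : ra T x ≤ ra T (2 ^ j * x) := by
              rw [hr]
              nlinarith
            have h6 : e * (z.re - ra T x) * Real.log T ≤ 18 * e * (2 ^ j * x) := by
              have h7 : ra T (2 ^ j * x) * Real.log T = 2 * (2 ^ j * x) := by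
                rw [ra_eq, div_mul_cancel₀ _ hL0.ne']
              have h8 : (z.re - ra T x) * Real.log T ≤ 9 * (ra T (2 ^ j * x) * Real.log T) := by
                rw [← mul_assoc]
                apply mul_le_mul_of_nonneg_right _ hL0.le
                linarith
              rw [h7] at h8
              calc e * (z.re - ra T x) * Real.log T = e * ((z.re - ra T x) * Real.log T) := by ring
                _ ≤ e * (9 * (2 * (2 ^ j * x))) := mul_le_mul_of_nonneg_left h8 he.le
                _ = 18 * e * (2 ^ j * x) := by ring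
            have h9 := Real.exp_le_exp.2 h6
            gcongr))
          obtain ⟨g1, g2⟩ := good_pt hTp0 hL (by positivity) le_rfl hG hj1 hj3
          refine ⟨g1, g2.trans ?_⟩
          nlinarith [mul_pos hCf hL0]
        · -- the far region
          obtain ⟨g1, g2⟩ := hfar z hzim (by linarith) (by linarith) (by
            intro z' hz'1 hz'2
            apply hF z' hz'1
            have h5 := abs_le.1 hz'2
            rw [abs_le]
            constructor <;> linarith)
          refine ⟨g1, g2.trans ?_⟩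
          nlinarith [mul_le_mul_of_nonneg_left hlog hCf.le]
      obtain ⟨g1, g2⟩ := hldz z (by linarith) (by linarith) (by linarith) hXX.1
      refine ⟨g1, g2.trans ?_⟩
      have h10 := hXX.2
      nlinarith [mul_pos hCt hL0]
  exact ⟨fun z h1 h2 => (key z h1 h2).1, fun z h1 h2 => (key z h1 h2).2⟩

theorem sZC (hsc1 : SC1) (hsc2 : SC2) : S_ZC := by
  obtain ⟨K, hK, hldz⟩ := ldz
  obtain ⟨Cf, Tf, hCf, hTf, hfar⟩ := farld
  obtain ⟨Ct, hCt, htriv⟩ := triv
  obtain ⟨cs, Cs, as, Ts, hcs, hCs, has, hTs, hscale⟩ := scale hsc1 hsc2 1 one_pos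
  obtain ⟨Cm, hCm, hfarm⟩ := farm
  refine ⟨2 + 2 * Cf + K + 1 + Ct, by positivity, fun B hB => ?_⟩
  obtain ⟨ρ, hρ⟩ : ∃ ρ : ℝ, ρ = max 1 (2 * B / cs) := ⟨_, rfl⟩
  have hρ1 : 1 ≤ ρ := by rw [hρ]; exact le_max_left _ _
  have hρ0 : 0 < ρ := by linarith
  have hρ2 : B ≤ cs / 2 * ρ := by
    have h1 : 2 * B / cs ≤ ρ := by rw [hρ]; exact le_max_right _ _
    rw [div_le_iff₀ hcs] at h1
    linarith
  obtain ⟨e, hed⟩ : ∃ e : ℝ, e = min (cs / 36) (1 / 20000) := ⟨_, rfl⟩
  have he : 0 < e := by rw [hed]; exact lt_min (by positivity) (by norm_num)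
  have he1 : e ≤ 1 / 20000 := by rw [hed]; exact min_le_right _ _
  have he2 : e ≤ cs / 36 := by rw [hed]; exact min_le_left _ _
  obtain ⟨κ1, hκd⟩ : ∃ κ1 : ℝ, κ1 = min (1 / (1000 * ρ)) (1 / (5000 * (B + 1))) := ⟨_, rfl⟩
  have hκ : 0 < κ1 := by rw [hκd]; exact lt_min (by positivity) (by positivity)
  have hκ1 : ρ * κ1 ≤ 1 / 1000 := by
    have h1 : κ1 ≤ 1 / (1000 * ρ) := by rw [hκd]; exact min_le_left _ _
    rw [le_div_iff₀ (by positivity)] at h1
    linarith
  have hκ2 : B * κ1 ≤ 1 / 5000 := by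
    have h1 : κ1 ≤ 1 / (5000 * (B + 1)) := by rw [hκd]; exact min_le_right _ _
    rw [le_div_iff₀ (by positivity)] at h1
    nlinarith
  refine ⟨ρ, e, κ1, hρ1, he, by linarith, hκ, hκ1, fun A hA => ?_⟩
  obtain ⟨Q, hQ⟩ : ∃ Q : ℝ, Q = 1 / (1 - Real.exp (-(cs / 2))) := ⟨_, rfl⟩
  have hQ0 : 0 < Q := by
    rw [hQ]
    apply one_div_pos.2
    have : Real.exp (-(cs / 2)) < 1 := Real.exp_lt_one_iff.2 (by linarith)
    linarith
  refine ⟨2 * A * Cs * Q + Cm * (A + 500), max (max Ts (4 * Tf)) (max (Real.exp 400) ((16 * A + 4000) ^ 2)),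
    ⌈as⌉₊ + 1, by positivity, hTs.trans ((le_max_left _ _).trans (le_max_left _ _)), ?_⟩
  intro T n hT hn hnκ
  have hT1 : Ts ≤ T := ((le_max_left _ _).trans (le_max_left _ _)).trans hT
  have hT2 : 4 * Tf ≤ T := ((le_max_right _ _).trans (le_max_left _ _)).trans hT
  have hT3 : Real.exp 400 ≤ T := ((le_max_left _ _).trans (le_max_right _ _)).trans hT
  have hT4 : (16 * A + 4000) ^ 2 ≤ T := ((le_max_right _ _).trans (le_max_right _ _)).trans hT
  have hTp : 0 < T := lt_of_lt_of_le (Real.exp_pos _) hT3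
  have hT1000 : 1000 ≤ T := by nlinarith
  obtain ⟨L, hLd⟩ : ∃ L : ℝ, L = Real.log T := ⟨_, rfl⟩
  have hL : 400 ≤ Real.log T := (Real.le_log_iff_exp_le hTp).2 hT3
  have hL0 : 0 < Real.log T := by linarith
  have hn1 : (as : ℝ) ≤ n := by
    have : ⌈as⌉₊ ≤ n := by omega
    exact (Nat.le_ceil as).trans (by exact_mod_cast this)
  have hn1' : (1 : ℝ) ≤ n := has.trans hn1
  obtain ⟨x, hx⟩ : ∃ x : ℝ, x = ρ * n := ⟨_, rfl⟩
  have hxn : (n : ℝ) ≤ x := by rw [hx]; nlinarith
  have hx1 : 1 ≤ x := hn1'.trans hxn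
  have hxas : as ≤ x := hn1.trans hxn
  have hxL : x ≤ Real.log T / 400 := by
    rw [hx]
    calc ρ * n ≤ ρ * (κ1 * Real.log T) := mul_le_mul_of_nonneg_left hnκ hρ0.le
      _ = ρ * κ1 * Real.log T := by ring
      _ ≤ 1 / 1000 * Real.log T := mul_le_mul_of_nonneg_right hκ1 hL0.le
      _ ≤ Real.log T / 400 := by linarith
  have hra : ρ * ra T n = ra T x := by
    rw [ra_eq, ra_eq, hx]
    ring
  rw [hra]
  obtain ⟨J, hJ1, hJ2⟩ := exJ hx1 hxL
  have hsqrt : Real.exp (Real.log T / 2) ^ 2 = T := by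
    rw [← Real.exp_nat_mul]
    have : ((2 : ℕ) : ℝ) * (Real.log T / 2) = Real.log T := by push_cast; ring
    rw [this, Real.exp_log hTp]
  obtain ⟨S, hS⟩ : ∃ S : ℝ, S = Real.exp (Real.log T / 2) := ⟨_, rfl⟩
  rw [← hS] at hsqrt
  have hS0 : 0 < S := by rw [hS]; exact Real.exp_pos _
  have hSA : 16 * A + 4000 ≤ S := by
    by_contra hcon
    push Not at hcon
    have : S ^ 2 < (16 * A + 4000) ^ 2 := pow_lt_pow_left₀ hcon hS0.le (by norm_num)
    linarith
  have hexpS : ∀ u : ℝ, u ≤ Real.log T / 2 → Real.exp u ≤ S := by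
    intro u hu
    rw [hS]
    exact Real.exp_le_exp.2 hu
  have hAS : A * S ≤ T / 16 := by nlinarith
  have hA2 : A * Real.exp (Real.log T / 10000) ≤ T / 16 := by
    have := hexpS (Real.log T / 10000) (by linarith)
    nlinarith
  have hr0 : 0 < ra T x := by rw [ra_eq]; positivity
  have hpowJ : ∀ j : ℕ, j ≤ J → (2 : ℝ) ^ j * x ≤ Real.log T / 400 := by
    intro j hj
    refine le_trans ?_ hJ1
    apply mul_le_mul_of_nonneg_right _ (by linarith)
    exact pow_le_pow_right₀ (by norm_num) hj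
  have hpow1 : ∀ j : ℕ, x ≤ (2 : ℝ) ^ j * x := fun j => le_mul_of_one_le_left (by linarith) (one_le_pow₀ (by norm_num))
  have hrj0 : ∀ j : ℕ, 0 < ra T (2 ^ j * x) := by
    intro j
    rw [ra_eq]
    positivity
  have hrJ : ∀ j : ℕ, j ≤ J → ra T (2 ^ j * x) ≤ 1 / 200 := by
    intro j hj
    rw [ra_eq, div_le_iff₀ hL0]
    linarith [hpowJ j hj]
  -- the exceptional sets
  set W : ℕ → ℝ := fun j => A * ra T (2 ^ j * x) * Real.exp (18 * e * (2 ^ j * x)) with hW
  set Wf : ℝ := A * Real.exp (Real.log T / 10000) + 500 with hWf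
  set E : ℕ → Set ℝ := fun j => {t : ℝ | T / 2 ≤ t ∧ t ≤ 3 * T ∧ ∃ y : ℝ, |y - t| ≤ W j ∧
    ¬ Good 1 T (2 ^ j * x) y} with hEd
  set F : Set ℝ := {t : ℝ | T / 2 ≤ t ∧ t ≤ 3 * T ∧ ∃ z : ℂ, XX z = 0 ∧ 1 / 100 ≤ z.re ∧ |z.im - t| ≤ Wf} with hFd
  have hsub : {t : ℝ | T / 2 ≤ t ∧ t ≤ 3 * T ∧ ¬ ZC T (ra T x) A e (2 + 2 * Cf + K + 1 + Ct) t} ⊆
      (⋃ j ∈ Finset.range (J + 1), E j) ∪ F := by
    rintro t ⟨ht1, ht2, hbad⟩
    by_contra hcon
    rw [mem_union, not_or] at hcon
    obtain ⟨hc1, hc2⟩ := hcon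
    apply hbad
    refine zcDet hL hT1000 hx1 hA he he1 hK hCf hCt hA2 hJ1 hJ2 ht1 ht2 hldz ?_ htriv ?_ ?_
    · intro z hz1
      exact hfar z (by linarith)
    · intro j hj y hy
      by_contra hG
      apply hc1
      simp only [mem_iUnion, exists_prop]
      exact ⟨j, Finset.mem_range.2 (by omega), ht1, ht2, y, hy, hG⟩
    · intro z hz1 hz2 hz3
      exact hc2 ⟨ht1, ht2, z, hz3, hz1, hz2⟩
  -- the measures
  have hEj : ∀ j ∈ Finset.range (J + 1), volume (E j) ≤
      ENNReal.ofReal (2 * A * Cs * T * Real.exp (-(cs / 2 * (2 ^ j * x)))) := by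
    intro j hj
    have hj' : j ≤ J := by
      rw [Finset.mem_range] at hj
      omega
    have hWj0 : 0 ≤ W j := by
      rw [hW]
      have := hrj0 j
      positivity
    have hWj : W j ≤ T / 8 := by
      have h1 : 18 * e * (2 ^ j * x) ≤ Real.log T / 2 := by
        have h2 := hpowJ j hj'
        have h3 : 18 * e ≤ 1 := by linarith
        have h4 : 0 ≤ (2 : ℝ) ^ j * x := by positivity
        nlinarith
      have h2 := hexpS _ h1
      have h3 := hrJ j hj'
      have h4 := hrj0 j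
      calc W j = A * ra T (2 ^ j * x) * Real.exp (18 * e * (2 ^ j * x)) := rfl
        _ ≤ A * 1 * S := by gcongr; linarith
        _ = A * S := by ring
        _ ≤ T / 8 := by linarith
    refine (hscale T (2 ^ j * x) (W j) hT1 (hxas.trans (hpow1 j)) (hpowJ j hj') hWj0 hWj).trans ?_
    apply ENNReal.ofReal_le_ofReal
    have h5 : (W j + ra T (2 ^ j * x)) / ra T (2 ^ j * x) ≤ 2 * A * Real.exp (18 * e * (2 ^ j * x)) := by
      rw [div_le_iff₀ (hrj0 j)]
      have h6 : 1 ≤ Real.exp (18 * e * (2 ^ j * x)) := Real.one_le_exp (by positivity)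
      have h7 : ra T (2 ^ j * x) ≤ A * ra T (2 ^ j * x) * Real.exp (18 * e * (2 ^ j * x)) := by
        have h8 := hrj0 j
        have h9 : 1 ≤ A * Real.exp (18 * e * (2 ^ j * x)) := by nlinarith
        calc ra T (2 ^ j * x) = 1 * ra T (2 ^ j * x) := (one_mul _).symm
          _ ≤ (A * Real.exp (18 * e * (2 ^ j * x))) * ra T (2 ^ j * x) :=
              mul_le_mul_of_nonneg_right h9 h8.le
          _ = _ := by ring
      calc W j + ra T (2 ^ j * x) ≤ A * ra T (2 ^ j * x) * Real.exp (18 * e * (2 ^ j * x)) +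
            A * ra T (2 ^ j * x) * Real.exp (18 * e * (2 ^ j * x)) := by
            rw [hW]
            linarith
        _ = 2 * A * Real.exp (18 * e * (2 ^ j * x)) * ra T (2 ^ j * x) := by ring
    calc Cs * T * ((W j + ra T (2 ^ j * x)) / ra T (2 ^ j * x)) * Real.exp (-(cs * (2 ^ j * x)))
        ≤ Cs * T * (2 * A * Real.exp (18 * e * (2 ^ j * x))) * Real.exp (-(cs * (2 ^ j * x))) := by
          gcongr
      _ = 2 * A * Cs * T * Real.exp (18 * e * (2 ^ j * x) + -(cs * (2 ^ j * x))) := by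
          rw [Real.exp_add]
          ring
      _ ≤ 2 * A * Cs * T * Real.exp (-(cs / 2 * (2 ^ j * x))) := by
          have h8 : 18 * e * (2 ^ j * x) + -(cs * (2 ^ j * x)) ≤ -(cs / 2 * (2 ^ j * x)) := by
            have h9 : 0 ≤ (2 : ℝ) ^ j * x := by positivity
            have h10 : 18 * e * (2 ^ j * x) ≤ cs / 2 * (2 ^ j * x) :=
              mul_le_mul_of_nonneg_right (by linarith) h9
            linarith
          have := Real.exp_le_exp.2 h8
          gcongr
  have hF : volume F ≤ ENNReal.ofReal (Cm * (A + 500) * T * Real.exp (-(B * n))) := by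
    have hWf0 : 0 ≤ Wf := by positivity
    have hWf1 : Wf ≤ T / 4 := by
      rw [hWf]
      have h1 : 16 * (S : ℝ) ≤ T := by nlinarith
      linarith
    refine (hfarm T Wf (by linarith) hWf0 hWf1).trans ?_
    apply ENNReal.ofReal_le_ofReal
    have h1 : Wf ≤ (A + 500) * Real.exp (Real.log T / 10000) := by
      rw [hWf]
      have : 1 ≤ Real.exp (Real.log T / 10000) := Real.one_le_exp (by positivity)
      linarith
    have h2 : T ^ (1 - 3 / 10000 : ℝ) = T * Real.exp (-(3 / 10000 * Real.log T)) := by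
      rw [Real.rpow_def_of_pos hTp]
      have : Real.log T * (1 - 3 / 10000) = Real.log T + -(3 / 10000 * Real.log T) := by ring
      rw [this, Real.exp_add, Real.exp_log hTp]
    rw [h2]
    have h3 : B * n ≤ Real.log T / 5000 := by
      calc B * n ≤ B * (κ1 * Real.log T) := mul_le_mul_of_nonneg_left hnκ hB.le
        _ = B * κ1 * Real.log T := by ring
        _ ≤ 1 / 5000 * Real.log T := mul_le_mul_of_nonneg_right hκ2 hL0.le
        _ = Real.log T / 5000 := by ring
    calc Cm * Wf * (T * Real.exp (-(3 / 10000 * Real.log T)))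
        ≤ Cm * ((A + 500) * Real.exp (Real.log T / 10000)) * (T * Real.exp (-(3 / 10000 * Real.log T))) := by
          gcongr
      _ = Cm * (A + 500) * T * Real.exp (Real.log T / 10000 + -(3 / 10000 * Real.log T)) := by
          rw [Real.exp_add]
          ring
      _ ≤ Cm * (A + 500) * T * Real.exp (-(B * n)) := by
          have : Real.log T / 10000 + -(3 / 10000 * Real.log T) ≤ -(B * n) := by linarith
          have := Real.exp_le_exp.2 this
          gcongr
  -- the sum
  calc volume {t : ℝ | T / 2 ≤ t ∧ t ≤ 3 * T ∧ ¬ ZC T (ra T x) A e (2 + 2 * Cf + K + 1 + Ct) t}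
      ≤ volume ((⋃ j ∈ Finset.range (J + 1), E j) ∪ F) := measure_mono hsub
    _ ≤ ∑ j ∈ Finset.range (J + 1), volume (E j) + volume F :=
        (measure_union_le _ _).trans (add_le_add (measure_biUnion_finset_le _ _) le_rfl)
    _ ≤ ∑ j ∈ Finset.range (J + 1), ENNReal.ofReal (2 * A * Cs * T * Real.exp (-(cs / 2 * (2 ^ j * x)))) +
        ENNReal.ofReal (Cm * (A + 500) * T * Real.exp (-(B * n))) :=
        add_le_add (Finset.sum_le_sum hEj) hF
    _ = ENNReal.ofReal (∑ j ∈ Finset.range (J + 1), 2 * A * Cs * T * Real.exp (-(cs / 2 * (2 ^ j * x))) +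
        Cm * (A + 500) * T * Real.exp (-(B * n))) := by
        rw [ENNReal.ofReal_add (Finset.sum_nonneg fun _ _ => by positivity) (by positivity),
          ENNReal.ofReal_sum_of_nonneg fun _ _ => by positivity]
    _ ≤ ENNReal.ofReal ((2 * A * Cs * Q + Cm * (A + 500)) * T * Real.exp (-(B * n))) := by
        apply ENNReal.ofReal_le_ofReal
        have h1 := geo' (cs / 2) (by positivity) x hx1 (J + 1)
        rw [← hQ] at h1
        have h2 : Real.exp (-(cs / 2 * x)) ≤ Real.exp (-(B * n)) := by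
          apply Real.exp_le_exp.2
          have : B * n ≤ cs / 2 * x := by
            rw [hx, ← mul_assoc]
            exact mul_le_mul_of_nonneg_right hρ2 (by linarith)
          linarith
        rw [← Finset.mul_sum]
        calc 2 * A * Cs * T * ∑ j ∈ Finset.range (J + 1), Real.exp (-(cs / 2 * (2 ^ j * x))) +
              Cm * (A + 500) * T * Real.exp (-(B * n))
            ≤ 2 * A * Cs * T * (Real.exp (-(B * n)) * Q) + Cm * (A + 500) * T * Real.exp (-(B * n)) := by
              have h3 : ∑ j ∈ Finset.range (J + 1), Real.exp (-(cs / 2 * (2 ^ j * x))) ≤ Real.exp (-(B * n)) * Q :=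
                h1.trans (mul_le_mul_of_nonneg_right h2 hQ0.le)
              gcongr
          _ = (2 * A * Cs * Q + Cm * (A + 500)) * T * Real.exp (-(B * n)) := by ring

end Pool.Agent.Zk41.DH
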